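import Pool.Agent.H89.FC.Targets2

/-!
# The fourth moment of the dihedral `L`-functions: definitions for real quadratic fields

`K` is a real quadratic field of discriminant `D` with the embeddings `σ` and `σ'`, `f` the
conductor, `κ` the parity and `ν` the spectral parameter of a character: the infinity type is
`a ↦ sgn (N a) ^ κ |σ a / σ' a| ^ (i ν)`. The form of the character has level `D f ^ 2`.
-/

set_option autoImplicit false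

open MeasureTheory Set Filter NumberField
open scoped Real nonZeroDivisors Matrix MatrixGroups

namespace Pool.Agent.H89.DF

open Pool.Agent.H31.CN Pool.Agent.H89.FM Pool.Agent.H61.FM Pool.Agent.H89.FC

/-! ### Local functions -/

/-- the unit `exp (2 i arctan (exp (- τ)))` -/
noncomputable def ur (τ : ℝ) : ℂ :=
  Complex.exp (((2 * Real.arctan (Real.exp (-τ)) : ℝ) : ℂ) * Complex.I)

/-- the trigonometric factor: `cos (m θ)` for even `κ`, `i sin (m θ)` for odd `κ`,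
`θ = 2 arctan (exp (- τ))` -/
noncomputable def trr (κ : ℕ) (m : ℤ) (τ : ℝ) : ℂ := (ur τ ^ m + (-1) ^ κ * ur τ ^ (-m)) / 2

/-- the local factor -/
noncomputable def crr (κ : ℕ) (m : ℤ) (ν : ℝ) (s : ℂ) : ℂ :=
  ∫ τ : ℝ, trr κ m τ * ((Real.cosh τ : ℝ) : ℂ) ^ (-s) *
    Complex.exp (-(((ν * τ : ℝ) : ℂ) * Complex.I))

/-- the kernel -/
noncomputable def Krr (κ : ℕ) (m : ℤ) (ν : ℝ) (τ₀ s : ℂ) (r : ℝ) : ℂ :=
  ∫ τ : ℝ, trr κ m τ * Kmc m.natAbs τ₀ s ((r * Real.cosh τ : ℝ) : ℂ) *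
    Complex.exp (-(((ν * τ : ℝ) : ℂ) * Complex.I))

/-! ### Forms and points -/

/-- the point `(x, y)` lies on the geodesic of the indefinite form `Q` -/
def Geo (Q : QF) (x y : ℝ) : Prop := (Q.1 : ℝ) * (x ^ 2 + y ^ 2) - Q.2.1 * x + Q.2.2 = 0

/-- the form `Q` is anisotropic modulo `p` -/
def Anis (p : ℕ) (Q : QF) : Prop :=
  ∀ w : ℤ × ℤ, (p : ℤ) ∣ val Q w → (p : ℤ) ∣ w.1 ∧ (p : ℤ) ∣ w.2

/-- the forms `Q` and `R` are congruent modulo `p` -/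
def Cgr (p : ℕ) (Q R : QF) : Prop :=
  (p : ℤ) ∣ Q.1 - R.1 ∧ (p : ℤ) ∣ Q.2.1 - R.2.1 ∧ (p : ℤ) ∣ Q.2.2 - R.2.2

open Classical in
/-- the twisted sum of the form `Q` at the point `(x, y)` -/
noncomputable def Bz (m : ℤ) (s : ℂ) (α : ℕ → ℂ) (N : ℕ) (Q : QF) (x y : ℝ) : ℂ :=
  ∑ n ∈ Sq N, α n * ∑ L ∈ (Ls n).filter (fun L => Dv n L Q), Em m s n L x y

/-- the denominator `|g 0 0 + g 1 0 z| ^ 2` of the transformation `g` -/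
noncomputable def gd (g : SL(2, ℤ)) (x y : ℝ) : ℝ :=
  ((g 0 0 : ℝ) + g 1 0 * x) ^ 2 + ((g 1 0 : ℝ) * y) ^ 2

/-- the real part of `(g 0 1 + g 1 1 z) / (g 0 0 + g 1 0 z)` -/
noncomputable def gx (g : SL(2, ℤ)) (x y : ℝ) : ℝ :=
  (((g 0 1 : ℝ) + g 1 1 * x) * ((g 0 0 : ℝ) + g 1 0 * x) + (g 1 1 : ℝ) * g 1 0 * y ^ 2) / gd g x y

/-- the imaginary part of `(g 0 1 + g 1 1 z) / (g 0 0 + g 1 0 z)` -/
noncomputable def gy (g : SL(2, ℤ)) (x y : ℝ) : ℝ := y / gd g x y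

open Classical in
/-- (TMr) the twisted second moment over points on the geodesics of indefinite forms, with
weights: the interface between the chapter II and the algebraic part. -/
def T_TMr : Prop :=
  ∀ ε : ℝ, 0 < ε → ∃ κ : ℝ, 0 < κ ∧ κ ≤ 1 / 8 ∧ ∃ δ : ℝ, 0 < δ ∧ ∃ (C : ℝ) (k : ℕ), 0 ≤ C ∧
    ∀ (Ω : Type) (S : Finset Ω) (Q : Ω → QF) (x y w : Ω → ℝ) (m : ℤ) (s : ℂ) (Y B : ℝ) (p N : ℕ)
      (α : ℕ → ℂ), |s.re - 1 / 2| ≤ κ → 1 ≤ Y → 1 ≤ N → (N : ℝ) ≤ Y ^ (1 + δ) →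
      (∀ n, ‖α n‖ ≤ 1) → p.Prime → 0 ≤ B →
      (∀ i ∈ S, Anis p (Q i) ∧ -(dsc (Q i) : ℝ) ≤ Y ^ 2 ∧ 0 < y i ∧ Geo (Q i) (x i) (y i) ∧
        0 ≤ w i) →
      (∀ R : QF, ∑ i ∈ S.filter (fun i => ∃ g : SL(2, ℤ), act (Q i) g = R ∧
        1 / 2 ≤ gy g (x i) (y i)), w i ≤ B) →
      ∑ i ∈ S, w i * ‖Bz m s α N (Q i) (x i) (y i)‖ ^ 2 ≤
        B * C * (p : ℝ) ^ 3 * (1 + |s.im| + |(m : ℝ)|) ^ k * cG m.natAbs s.im ^ 2 *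
          Y ^ (3 + ε) * N

/-! ### Real quadratic fields and their characters -/

section

variable (K : Type) [Field K] [NumberField K]

/-- `K` is a real quadratic field of discriminant `D` with the embeddings `σ` and `σ'` -/
structure RQ (D : ℕ) (σ σ' : K →+* ℝ) : Prop where
  pos : 0 < D
  rk : Module.finrank ℚ K = 2
  dis : discr K = (D : ℤ)
  ne : σ ≠ σ'

variable {K}

/-- the logarithm of `|σ a / σ' a|` -/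
noncomputable def lg (σ σ' : K →+* ℝ) (a : 𝓞 K) : ℝ := Real.log |σ (a : K) / σ' (a : K)|

/-- the infinity type -/
noncomputable def tyr (σ σ' : K →+* ℝ) (κ : ℕ) (ν : ℝ) (a : 𝓞 K) : ℂ :=
  ((Real.sign (σ (a : K) * σ' (a : K)) : ℝ) : ℂ) ^ κ *
    Complex.exp (((ν * lg σ σ' a : ℝ) : ℂ) * Complex.I)

variable (K)

/-- `ψ` is a primitive Hecke character of `K` of conductor `f`, which is trivial on the ideals of
`ℚ` prime to `f`, with the infinity type `sgn (N a) ^ κ |σ a / σ' a| ^ (i ν)` -/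
structure RCr (σ σ' : K →+* ℝ) (f κ : ℕ) (ν : ℝ) (ψ : Ideal (𝓞 K) → ℂ) : Prop where
  pos : 0 < f
  kap : κ ≤ 1
  one : ψ ⊤ = 1
  mul : ∀ I J, ψ (I * J) = ψ I * ψ J
  van : ∀ I, ¬ Pool.Agent.H95.CF.Pr K f I → ψ I = 0
  abs : ∀ I, Pool.Agent.H95.CF.Pr K f I → ‖ψ I‖ = 1
  prc : ∀ a : 𝓞 K, Pool.Agent.H95.CF.Rat K f f a → ψ (Ideal.span {a}) = tyr σ σ' κ ν a
  prim : ∀ p : ℕ, p.Prime → p ∣ f → ∃ a : 𝓞 K, Pool.Agent.H95.CF.Rat K f (f / p) a ∧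
    ψ (Ideal.span {a}) ≠ tyr σ σ' κ ν a

end

/-! ### Families -/

/-- the indices of the family: discriminant, character -/
abbrev IXr (K : ℕ → Type) [∀ D, Field (K D)] [∀ D, NumberField (K D)] : Type :=
  Σ D : ℕ, Ideal (𝓞 (K D)) → ℂ

/-- the level of an index -/
noncomputable def lvr {K : ℕ → Type} [∀ D, Field (K D)] [∀ D, NumberField (K D)] (f : IXr K → ℕ)
    (x : IXr K) : ℝ := (x.1 : ℝ) * (f x : ℝ) ^ 2

/-- a finite family of characters with their conductors, parities, spectral parameters and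
`L`-functions, with levels in `[a, b]` and spectral parameters in `[-V, V]` -/
structure Famr (K : ℕ → Type) [∀ D, Field (K D)] [∀ D, NumberField (K D)]
    (σ σ' : ∀ D, K D →+* ℝ) (S : Finset (IXr K)) (f κ : IXr K → ℕ) (ν : IXr K → ℝ)
    (F : IXr K → ℂ → ℂ) (a b V : ℝ) : Prop where
  q : ∀ x ∈ S, a ≤ lvr f x ∧ lvr f x ≤ b
  rq : ∀ x ∈ S, RQ (K x.1) x.1 (σ x.1) (σ' x.1)
  ch : ∀ x ∈ S, RCr (K x.1) (σ x.1) (σ' x.1) (f x) (κ x) (ν x) x.2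
  lf : ∀ x ∈ S, IsL x.2 (F x)
  nu : ∀ x ∈ S, |ν x| ≤ V

/-- (TMFr) the twisted second moment of the `L`-functions: the interface between the algebraic
part and the analytic part. -/
def T_TMFr : Prop :=
  ∀ ε : ℝ, 0 < ε → ∃ κ₀ : ℝ, 0 < κ₀ ∧ κ₀ ≤ 1 / 8 ∧ ∃ δ : ℝ, 0 < δ ∧ ∃ (C : ℝ) (k : ℕ), 0 < C ∧
    ∀ (s : ℂ) (X V : ℝ) (N : ℕ) (α : ℕ → ℂ) (K : ℕ → Type) [∀ D, Field (K D)]
      [∀ D, NumberField (K D)] (σ σ' : ∀ D, K D →+* ℝ) (S : Finset (IXr K)) (f κ : IXr K → ℕ)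
      (ν : IXr K → ℝ) (F : IXr K → ℂ → ℂ),
      |s.re - 1 / 2| ≤ κ₀ → 1 ≤ X → 1 ≤ V → 1 ≤ N → (N : ℝ) ≤ X ^ ((1 + δ) / 2) →
      (∀ n, ‖α n‖ ≤ 1) → Famr K σ σ' S f κ ν F (X / 4) X V →
      ∑ x ∈ S, ‖∑ n ∈ Sq N, α n * lc x.2 n‖ ^ 2 * ‖F x s‖ ^ 2 ≤
        C * (1 + |s.im| + V) ^ k * X ^ (3 / 2 + ε) * N

/-- (LFKr) the `L`-function as a rapidly convergent series. -/
def T_LFKr : Prop :=
  ∀ (K : Type) [Field K] [NumberField K] (σ σ' : K →+* ℝ) (D f κ : ℕ) (ν : ℝ)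
    (ψ : Ideal (𝓞 K) → ℂ) (F : ℂ → ℂ), RQ K D σ σ' → RCr K σ σ' f κ ν ψ → IsL ψ F →
    ∀ (m : ℤ) (τ₀ s : ℂ), ‖τ₀‖ = 1 → 0 < τ₀.re → 0 < s.re → s ≠ 1 →
      HasSum (fun J : (Ideal (𝓞 K))⁰ => ψ J *
        Krr κ m ν τ₀ s ((nm J : ℝ) / (f * Real.sqrt D)))
        (gM m.natAbs s * crr κ m ν s * ((f : ℂ) ^ 2 * D) ^ (s / 2) * F s)

/-- (EXLr) the `L`-functions exist. -/
def T_EXLr : Prop :=
  ∀ (K : Type) [Field K] [NumberField K] (σ σ' : K →+* ℝ) (D f κ : ℕ) (ν : ℝ)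
    (ψ : Ideal (𝓞 K) → ℂ), RQ K D σ σ' → RCr K σ σ' f κ ν ψ → ∃ F : ℂ → ℂ, IsL ψ F

/-- (HBDr) the number of the characters of given discriminant and conductor with bounded spectral
parameters. -/
def T_HBDr : Prop :=
  ∀ ε : ℝ, 0 < ε → ∃ C : ℝ, 0 < C ∧ ∀ (K : Type) [Field K] [NumberField K] (σ σ' : K →+* ℝ)
    (D f : ℕ) (V : ℝ) (Ψ : Finset (Ideal (𝓞 K) → ℂ)) (κ : (Ideal (𝓞 K) → ℂ) → ℕ)
    (ν : (Ideal (𝓞 K) → ℂ) → ℝ), RQ K D σ σ' → 1 ≤ V →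
    (∀ ψ ∈ Ψ, RCr K σ σ' f (κ ψ) (ν ψ) ψ ∧ |ν ψ| ≤ V) →
    (Ψ.card : ℝ) ≤ C * V ^ 2 * ((D : ℝ) * (f : ℝ) ^ 2) ^ (1 / 2 + ε)

/-- (CRL) some local factor of small weight is not small. -/
def T_CRL : Prop :=
  ∃ (C : ℝ) (k : ℕ), 0 < C ∧ ∀ (κ : ℕ) (ν : ℝ) (s : ℂ), |s.re - 1 / 2| ≤ 1 / 8 →
    ∃ m : ℕ, (m : ℝ) ≤ C * (1 + |s.im| + |ν|) ^ k ∧
      1 ≤ C * (1 + |s.im| + |ν|) ^ k * ‖crr κ m ν s‖

/-- (KRBr) bounds for the kernel. -/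
def T_KRBr : Prop :=
  ∃ (C : ℝ) (k : ℕ) (c : ℝ), 0 < C ∧ 0 < c ∧ ∀ (κ : ℕ) (m : ℤ) (ν : ℝ) (s : ℂ),
    |s.re - 1 / 2| ≤ 1 / 8 →
    ContinuousOn (deriv (Krr κ m ν (tum m.natAbs s.im) s)) (Ioi 0) ∧
      ∀ r : ℝ, 0 < r → DifferentiableAt ℝ (Krr κ m ν (tum m.natAbs s.im) s) r ∧
        ‖Krr κ m ν (tum m.natAbs s.im) s r‖ ≤ C * (1 + |s.im| + |(m : ℝ)|) ^ k *
          cG m.natAbs s.im * (r ^ (-s.re) + r ^ (s.re - 1)) *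
          Real.exp (-(c * r / (1 + |s.im| + |(m : ℝ)|))) ∧
        ‖deriv (Krr κ m ν (tum m.natAbs s.im) s) r‖ ≤ C * (1 + |s.im| + |(m : ℝ)|) ^ k *
          cG m.natAbs s.im * (r ^ (-s.re - 1) + r ^ (s.re - 2)) *
          Real.exp (-(c * r / (1 + |s.im| + |(m : ℝ)|)))

end Pool.Agent.H89.DF
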