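import Pool.Agent.H89.DF.Asm

/-!
# The fourth moment of the self-dual dihedral `L`-functions: the final theorem
-/

set_option autoImplicit false

open MeasureTheory Set Filter NumberField
open scoped Real nonZeroDivisors

namespace Pool.Agent.H89.DF

open Pool.Agent.H31.CN Pool.Agent.H89.FM Pool.Agent.H61.FM Pool.Agent.H89.FC

/-- the final theorem -/
theorem all :
    (∀ (K : Type) [Field K] [NumberField K] (σ σ' : K →+* ℂ) (f : ℕ) (m : ℤ) (ν : ℝ)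
      (ψ : Ideal (𝓞 K) → ℂ), Module.finrank ℚ K = 2 → σ ≠ σ' → IsHeckeD K σ σ' f m ν ψ →
      ∃ L : ℂ → ℂ, IsLFunction K ψ L) ∧
    ∀ ε : ℝ, 0 < ε → ∃ (C : ℝ) (A : ℕ), ∀ (X : ℝ) (K : ℤ → Type)
      [∀ d, Field (K d)] [∀ d, NumberField (K d)] (σ σ' : ∀ d, K d →+* ℂ) (S : Finset (IndexD K))
      (f : IndexD K → ℕ) (m : IndexD K → ℤ) (ν : IndexD K → ℝ) (L : IndexD K → ℂ → ℂ), 1 ≤ X →
      FamilyD X K σ σ' S f m ν L →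
      (∀ t : IndexD K → ℝ,
        ∑ x ∈ S, (‖L x (1 / 2 + t x * Complex.I)‖ / szD m ν x (t x) ^ A) ^ 4 ≤
          C * X ^ (3 / 2 + ε)) ∧
      (∀ η : ℝ, 0 ≤ η → η ≤ 3 / 8 →
        (∀ x ∈ S, ∃ t : ℝ, szD m ν x t ^ A * (|(x.1 : ℝ)| * (f x : ℝ) ^ 2) ^ η <
          ‖L x (1 / 2 + t * Complex.I)‖) →
        (S.card : ℝ) ≤ C * X ^ (3 / 2 - 4 * η + ε)) ∧
      ∀ (η : ℝ) (T : Finset (ℤ × ℕ)), 0 ≤ η → η ≤ 1 / 4 →
        (∀ q ∈ T, ∃ x ∈ S, x.1 = q.1 ∧ f x = q.2 ∧ ∃ t : ℝ,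
          szD m ν x t ^ A * (|(x.1 : ℝ)| * (f x : ℝ) ^ 2) ^ (1 / 8 + η) <
          ‖L x (1 / 2 + t * Complex.I)‖) →
        (T.card : ℝ) ≤ C * X ^ (1 - 4 * η + ε) :=
  finD e_AXL e_NF2 e_NCO e_NC2

end Pool.Agent.H89.DF
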