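import Pool.Agent.H89.DF.Defs

/-!
# Dihedral `L`-functions, real quadratic fields: targets, analysis
-/

set_option autoImplicit false

open MeasureTheory Set Filter
open scoped Real Matrix MatrixGroups

namespace Pool.Agent.H89.DF

open Pool.Agent.H31.CN Pool.Agent.H89.FM Pool.Agent.H89.FC

/-! ### Unfolding, Bessel's inequality, grids -/

open Classical in
/-- (UNF) unfolding a periodic integral. -/
def T_UNF : Prop :=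
  ∀ (Ω : Type) [Countable Ω] (E : Ω ≃ Ω) (l : Ω → ℝ) (P ν : ℝ) (g : Ω → ℝ → ℂ), 0 < P →
    (∀ x, l (E x) = l x + P) → (∀ x, g (E x) = g x) → (∀ x, Integrable (g x)) →
    Complex.exp (((ν * P : ℝ) : ℂ) * Complex.I) = 1 →
    Summable (fun x : Ω => if 0 ≤ l x ∧ l x < P then ∫ τ : ℝ, ‖g x τ‖ else 0) →
    (∀ᵐ τ : ℝ, Summable (fun x => ‖g x (τ + l x)‖)) ∧
    IntervalIntegrable (fun τ : ℝ => (∑' x, g x (τ + l x)) *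
      Complex.exp (-(((ν * τ : ℝ) : ℂ) * Complex.I))) volume 0 P ∧
    HasSum (fun x : Ω => if 0 ≤ l x ∧ l x < P then
      Complex.exp (((ν * l x : ℝ) : ℂ) * Complex.I) *
        ∫ τ : ℝ, g x τ * Complex.exp (-(((ν * τ : ℝ) : ℂ) * Complex.I)) else 0)
      (∫ τ in (0 : ℝ)..P, (∑' x, g x (τ + l x)) *
        Complex.exp (-(((ν * τ : ℝ) : ℂ) * Complex.I)))

open Classical in
/-- (UNR) unfolding a periodic integral of a nonnegative function. -/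
def T_UNR : Prop :=
  ∀ (Ω : Type) [Countable Ω] (E : Ω ≃ Ω) (l : Ω → ℝ) (P : ℝ) (g : Ω → ℝ → ℝ), 0 < P →
    (∀ x, l (E x) = l x + P) → (∀ x, g (E x) = g x) → (∀ x, Integrable (g x)) →
    (∀ x τ, 0 ≤ g x τ) →
    Summable (fun x : Ω => if 0 ≤ l x ∧ l x < P then ∫ τ : ℝ, g x τ else 0) →
    (∀ᵐ τ : ℝ, Summable (fun x => g x (τ + l x))) ∧
    IntervalIntegrable (fun τ : ℝ => ∑' x, g x (τ + l x)) volume 0 P ∧
    HasSum (fun x : Ω => if 0 ≤ l x ∧ l x < P then ∫ τ : ℝ, g x τ else 0)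
      (∫ τ in (0 : ℝ)..P, ∑' x, g x (τ + l x))

/-- (BES) Bessel's inequality. -/
def T_BES : Prop :=
  ∀ (I J : Type) (Ψ : Finset I) (T : Finset J) (ρ : I → J → ℂ) (ν : I → ℝ) (P : ℝ)
    (G : J → ℝ → ℂ), 0 < P →
    (∀ i ∈ Ψ, ∀ j ∈ T, ‖ρ i j‖ = 1) →
    (∀ j ∈ T, AEStronglyMeasurable (G j) (volume.restrict (Icc 0 P)) ∧
      ∃ C : ℝ, ∀ τ ∈ Icc (0 : ℝ) P, ‖G j τ‖ ≤ C) →
    (∀ i ∈ Ψ, ∀ i' ∈ Ψ, i ≠ i' →
      (∑ j ∈ T, ρ i j * (starRingEnd ℂ) (ρ i' j)) *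
        ∫ τ in (0 : ℝ)..P, Complex.exp (-((((ν i - ν i') * τ : ℝ) : ℂ) * Complex.I)) = 0) →
    ∑ i ∈ Ψ, ‖∑ j ∈ T, ρ i j * ∫ τ in (0 : ℝ)..P, G j τ *
      Complex.exp (-(((ν i * τ : ℝ) : ℂ) * Complex.I))‖ ^ 2 ≤
      T.card * P * ∑ j ∈ T, ∫ τ in (0 : ℝ)..P, ‖G j τ‖ ^ 2

/-- (GRD) an integral is at most a Riemann sum with suitable points. -/
def T_GRD : Prop :=
  ∀ (h : ℝ → ℝ) (P : ℝ), 0 < P → ContinuousOn h (Icc 0 P) →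
    ∃ (n : ℕ) (t : ℕ → ℝ), 1 ≤ n ∧ P / n ≤ 1 ∧
      (∀ j < n, j * (P / n) ≤ t j ∧ t j ≤ (j + 1) * (P / n)) ∧
      ∫ τ in (0 : ℝ)..P, h τ ≤ ∑ j ∈ Finset.range n, P / n * h (t j)

/-- (SEP) separated real numbers. -/
def T_SEP : Prop :=
  ∀ (F : Finset ℝ) (a b c : ℝ), 0 < c → a ≤ b → (∀ x ∈ F, a ≤ x ∧ x ≤ b) →
    (∀ x ∈ F, ∀ y ∈ F, x ≠ y → c ≤ |x - y|) → (F.card : ℝ) ≤ 1 + (b - a) / c

/-! ### The local factors -/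

/-- (TRA) the trigonometric factors. -/
def T_TRA : Prop :=
  (∀ τ : ℝ, ur τ = ((Real.sinh τ : ℝ) + Complex.I) / ((Real.cosh τ : ℝ) : ℂ)) ∧
  (∀ τ : ℝ, ‖ur τ‖ = 1) ∧ Continuous ur ∧
  ∀ (κ : ℕ) (m : ℤ), Continuous (trr κ m) ∧ (∀ τ, ‖trr κ m τ‖ ≤ 1) ∧
    (κ ≤ 1 → ∀ τ, trr κ κ τ = if κ = 0 then 1 else Complex.I / ((Real.cosh τ : ℝ) : ℂ))

/-- (CRI) the local factor converges and is holomorphic. -/
def T_CRI : Prop :=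
  ∀ (κ : ℕ) (m : ℤ) (ν : ℝ), DifferentiableOn ℂ (crr κ m ν) {s | 0 < s.re} ∧
    ∀ s : ℂ, 0 < s.re →
      Integrable (fun τ : ℝ => (Real.cosh τ) ^ (-s.re)) ∧
      Integrable (fun τ : ℝ => trr κ m τ * ((Real.cosh τ : ℝ) : ℂ) ^ (-s) *
        Complex.exp (-(((ν * τ : ℝ) : ℂ) * Complex.I)))

/-- (CRE) the local factor of lowest weight. -/
def T_CRE : Prop :=
  ∀ (κ : ℕ) (ν : ℝ) (s : ℂ), κ ≤ 1 → 0 < s.re →
    crr κ κ ν s = Complex.I ^ κ * 2 ^ (s + κ - 1) *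
      Complex.Gamma ((s + κ + ν * Complex.I) / 2) * Complex.Gamma ((s + κ - ν * Complex.I) / 2) /
        Complex.Gamma (s + κ)

/-- (KMG) the kernel of weight `2 m`, arbitrary rotation: continuity and a rough bound. -/
def T_KMG : Prop :=
  ∀ (m : ℕ) (τ₀ s : ℂ), ‖τ₀‖ = 1 → 0 < τ₀.re →
    ContinuousOn (fun r : ℝ => Kmc m τ₀ s (r : ℂ)) (Ioi 0) ∧
    ∃ C a : ℝ, 0 ≤ C ∧ 1 < a ∧ ∀ r : ℝ, 0 < r → ‖Kmc m τ₀ s (r : ℂ)‖ ≤ C * r ^ (-a)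

/-- (EZC) the completed Epstein zeta function of weight `0` at `s = 0`. -/
def T_EZC : Prop := ∀ x y : ℝ, 0 < y → Em 0 0 1 ⊤ x y = 1

/-- (EJC) the completed Epstein zeta functions are jointly continuous in `(s, x, y)`. -/
def T_EJC : Prop :=
  ∀ (m : ℤ) (n : ℕ) (L : AddSubgroup (ℤ × ℤ)), 1 ≤ n → L ∈ Ls n →
    ContinuousOn (fun p : ℂ × ℝ × ℝ => Em m p.1 n L p.2.1 p.2.2) {p | 0 < p.2.2}

end Pool.Agent.H89.DF
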