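import Pool.Agent.H23.DF.Targets
import Pool.Agent.H89.DF.TargetsB

/-!
# Real quadratic fields: the local factor of the least weight
-/

set_option autoImplicit false

open MeasureTheory Set Filter NumberField
open scoped Real nonZeroDivisors

namespace Pool.Agent.H89.DF

open Pool.Agent.H31.CN Pool.Agent.H89.FM Pool.Agent.H61.FM Pool.Agent.H89.FC

theorem pf_CRX (hCRE : T_CRE) : Pool.Agent.H23.DF.T_CRX := by
  intro κ ν s hκ hs
  have h1 : Complex.Gamma (s + κ) ≠ 0 := by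
    apply Complex.Gamma_ne_zero_of_re_pos
    rw [Complex.add_re, Complex.natCast_re]
    positivity
  have h2 : (2 * (π : ℂ)) ^ (-(s + κ)) = (2 : ℂ) ^ (-(s + κ)) * (π : ℂ) ^ (-(s + κ)) := by
    have := Complex.mul_cpow_ofReal_nonneg (a := 2) (b := π) (by norm_num) Real.pi_pos.le
      (-(s + κ))
    rw [Complex.ofReal_ofNat] at this
    exact this
  have h3 : (2 : ℂ) ^ (-(s + κ)) * (2 : ℂ) ^ (s + κ - 1) = 1 / 2 := by
    rw [← Complex.cpow_add _ _ (by norm_num : (2 : ℂ) ≠ 0)]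
    have : -(s + (κ : ℂ)) + (s + κ - 1) = ((-1 : ℤ) : ℂ) := by push_cast; ring
    rw [this, Complex.cpow_intCast]
    norm_num
  rw [hCRE κ ν s hκ hs]
  unfold gM
  rw [h2]
  obtain ⟨A, hA⟩ : ∃ A : ℂ, A = (2 : ℂ) ^ (-(s + (κ : ℂ))) := ⟨_, rfl⟩
  obtain ⟨B, hB⟩ : ∃ B : ℂ, B = (2 : ℂ) ^ (s + (κ : ℂ) - 1) := ⟨_, rfl⟩
  obtain ⟨G, hG⟩ : ∃ G : ℂ, G = Complex.Gamma (s + κ) := ⟨_, rfl⟩
  rw [← hA, ← hB] at h3
  rw [← hG] at h1
  rw [← hA, ← hB, ← hG]
  have h4 : A * B = 1 / 2 := h3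
  calc s * (s - 1) * G * (A * (π : ℂ) ^ (-(s + (κ : ℂ)))) *
        (Complex.I ^ κ * B * Complex.Gamma ((s + κ + ν * Complex.I) / 2) *
          Complex.Gamma ((s + κ - ν * Complex.I) / 2) / G)
      = (A * B) * (G / G) * (Complex.I ^ κ * (s * (s - 1)) * (π : ℂ) ^ (-(s + (κ : ℂ))) *
          Complex.Gamma ((s + κ + ν * Complex.I) / 2) *
          Complex.Gamma ((s + κ - ν * Complex.I) / 2)) := by ring
    _ = _ := by
      rw [h4, div_self h1]
      ring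

end Pool.Agent.H89.DF
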