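import Pool.Agent.H89.DF.Fin2

/-!
# The dihedral `L`-functions: the final theorem from the parts
-/

set_option autoImplicit false

open MeasureTheory Set Filter NumberField
open scoped Real nonZeroDivisors

namespace Pool.Agent.H89.DF

open Pool.Agent.H31.CN Pool.Agent.H89.FM Pool.Agent.H61.FM Pool.Agent.H89.FC

/-- the final theorem from the parts -/
theorem finD (hEXL : T_EXLr) (hFM2 : T_FM2r) (hCOR : T_CORr) (hCO2 : T_CO2r) :
    (∀ (K : Type) [Field K] [NumberField K] (σ σ' : K →+* ℂ) (f : ℕ) (m : ℤ) (ν : ℝ)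
      (ψ : Ideal (𝓞 K) → ℂ), Module.finrank ℚ K = 2 → σ ≠ σ' → IsHeckeD K σ σ' f m ν ψ →
      ∃ L : ℂ → ℂ, IsLFunction K ψ L) ∧
    ∀ ε : ℝ, 0 < ε → ∃ (C : ℝ) (A : ℕ), ∀ (X : ℝ) (K : ℤ → Type)
      [∀ d, Field (K d)] [∀ d, NumberField (K d)] (σ σ' : ∀ d, K d →+* ℂ) (S : Finset (IndexD K))
      (f : IndexD K → ℕ) (m : IndexD K → ℤ) (ν : IndexD K → ℝ) (L : IndexD K → ℂ → ℂ), 1 ≤ X →
      FamilyD X K σ σ' S f m ν L →
      (∀ t : IndexD K → ℝ,
        ∑ x ∈ S, (‖L x (1 / 2 + t x * Complex.I)‖ / szD m ν x (t x) ^ A) ^ 4 ≤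
          C * X ^ (3 / 2 + ε)) ∧
      (∀ η : ℝ, 0 ≤ η → η ≤ 3 / 8 →
        (∀ x ∈ S, ∃ t : ℝ, szD m ν x t ^ A * (|(x.1 : ℝ)| * (f x : ℝ) ^ 2) ^ η <
          ‖L x (1 / 2 + t * Complex.I)‖) →
        (S.card : ℝ) ≤ C * X ^ (3 / 2 - 4 * η + ε)) ∧
      ∀ (η : ℝ) (T : Finset (ℤ × ℕ)), 0 ≤ η → η ≤ 1 / 4 →
        (∀ q ∈ T, ∃ x ∈ S, x.1 = q.1 ∧ f x = q.2 ∧ ∃ t : ℝ,
          szD m ν x t ^ A * (|(x.1 : ℝ)| * (f x : ℝ) ^ 2) ^ (1 / 8 + η) <
          ‖L x (1 / 2 + t * Complex.I)‖) →
        (T.card : ℝ) ≤ C * X ^ (1 - 4 * η + ε) := by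
  classical
  constructor
  · intro K _ _ σ σ' f m ν ψ hrk hne hψ
    rcases lt_or_gt_of_ne (NumberField.discr_ne_zero K) with hd | hd
    · exact Pool.Agent.H89.FC.all.1 K σ f m ψ hrk hd
        (isHecke_imag K hrk hd σ σ' hne f m ν ψ hψ)
    · obtain ⟨ρ, hρ⟩ := real_of_pos K hrk hd σ
      obtain ⟨ρ', hρ'⟩ := real_of_pos K hrk hd σ'
      obtain ⟨D, hD⟩ : ∃ D : ℕ, discr K = (D : ℤ) := ⟨(discr K).natAbs, by omega⟩
      obtain ⟨F, hF⟩ := hEXL K ρ ρ' D f (m.natAbs % 2) ν ψ ⟨by omega, hrk, hD, by
        intro h0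
        apply hne
        ext a
        rw [hρ, hρ', h0]⟩ (isHecke_real K σ σ' ρ ρ' hρ hρ' f m ν ψ hψ)
      exact ⟨F, hF⟩
  · intro ε hε
    obtain ⟨C₀, A₀, h0⟩ := Pool.Agent.H89.FC.all.2 ε hε
    obtain ⟨C₁, A₁, hC₁, h1⟩ := hFM2 ε hε
    obtain ⟨C₂, A₂, hC₂, h2⟩ := hCOR ε hε
    obtain ⟨C₃, A₃, hC₃, h3⟩ := hCO2 ε hε
    obtain ⟨A, hA⟩ : ∃ A : ℕ, A = A₀ + A₁ + A₂ + A₃ := ⟨_, rfl⟩
    obtain ⟨C, hC⟩ : ∃ C : ℝ, C = |C₀| + C₁ + C₂ + C₃ := ⟨_, rfl⟩
    refine ⟨C, A, ?_⟩
    intro X K _ _ σ σ' S f m ν L hX hS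
    have hX0 : (0 : ℝ) < X := by linarith
    have hXp : ∀ r : ℝ, 0 < X ^ r := fun r => Real.rpow_pos_of_pos hX0 r
    have hC0 : C₀ ≤ |C₀| := le_abs_self C₀
    have hCn : 0 ≤ |C₀| := abs_nonneg C₀
    have hpw : ∀ (x : IndexD K) (t : ℝ) (B : ℕ), B ≤ A → szD m ν x t ^ B ≤ szD m ν x t ^ A :=
      fun x t B hB => pow_le_pow_right₀ (szD_ge m ν x t).1 hB
    have hne := famD_ne hS
    -- the two halves
    obtain ⟨S₂, g₂, hF₂, hg₂, hi₂, hs₂⟩ := imag_half hS
    obtain ⟨hI1, hI2, hI3⟩ := h0 X (fun D : ℕ => K (-(D : ℤ))) (fun D => σ (-(D : ℤ))) S₂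
      (fun z => L (g₂ z)) hX hF₂
    -- sums over the imaginary half
    have hsum₂ : ∀ h : IndexD K → ℝ, ∑ z ∈ S₂, h (g₂ z) = ∑ x ∈ S.filter (fun x => x.1 < 0), h x := by
      intro h
      apply Finset.sum_nbij g₂
      · intro z hz
        rw [Finset.mem_filter]
        exact ⟨(hg₂ z hz).1, (hg₂ z hz).2.2.1⟩
      · exact hi₂
      · intro x hx
        rw [Finset.mem_coe, Finset.mem_filter] at hx
        obtain ⟨z, hz, rfl⟩ := hs₂ x hx.1 hx.2
        exact ⟨z, hz, rfl⟩
      · intro z _
        rfl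
    have hA0 : A₀ ≤ A := by omega
    have hA1 : A₁ ≤ A := by omega
    have hA2 : A₂ ≤ A := by omega
    have hA3 : A₃ ≤ A := by omega
    -- powers of the sizes
    have hsz2 : ∀ (z : Index (fun D : ℕ => K (-(D : ℤ)))), z ∈ S₂ → ∀ t : ℝ,
        size z t ^ A₀ ≤ szD m ν (g₂ z) t ^ A ∧ 0 < size z t ^ A₀ := by
      intro z hz t
      have e1 : size z t = 1 + |t| + |(m (g₂ z) : ℝ)| := by
        unfold size
        rw [(hg₂ z hz).2.2.2.2.1]
      have e2 : 1 ≤ size z t := by
        unfold size
        have := abs_nonneg t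
        have := abs_nonneg (z.2.2.1 : ℝ)
        linarith
      refine ⟨?_, by positivity⟩
      refine le_trans ?_ (hpw (g₂ z) t A₀ hA0)
      apply pow_le_pow_left₀ (by linarith)
      rw [e1]
      exact (szD_ge m ν (g₂ z) t).2.2
    -- sums over the real half
    have hreal : (∀ x ∈ S, ¬ 0 < x.1) ∨ ∃ x₀ ∈ S, 0 < x₀.1 := by
      by_cases h : ∃ x₀ ∈ S, 0 < x₀.1
      · exact Or.inr h
      · left
        intro x hx hx0
        exact h ⟨x, hx, hx0⟩
    refine ⟨?_, ?_, ?_⟩
    · -- the fourth moment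
      intro t
      set h : IndexD K → ℝ := fun x =>
        (‖L x (1 / 2 + t x * Complex.I)‖ / szD m ν x (t x) ^ A) ^ 4 with hh
      have hI := hI1 (fun z => t (g₂ z))
      have hneg : ∑ x ∈ S.filter (fun x => x.1 < 0), h x ≤ C₀ * X ^ (3 / 2 + ε) := by
        rw [← hsum₂]
        refine le_trans (Finset.sum_le_sum fun z hz => ?_) hI
        apply pow_le_pow_left₀ (by have := (szD_ge m ν (g₂ z) (t (g₂ z))).1; positivity)
        have h5 := hsz2 z hz (t (g₂ z))
        exact div_le_div_of_nonneg_left (norm_nonneg _) h5.2 h5.1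
      have hpos : ∑ x ∈ S.filter (fun x => 0 < x.1), h x ≤ C₁ * X ^ (3 / 2 + ε) := by
        rcases hreal with hr | ⟨x₀, _, hx₀⟩
        · rw [Finset.filter_false_of_mem hr, Finset.sum_empty]
          have := hXp (3 / 2 + ε)
          positivity
        · obtain ⟨K', i1, i2, τ, τ', S', g, κ, V, hF, hg, hi, hs⟩ := real_half hS x₀ hx₀
          have hR := h1 X V K' τ τ' S' (fun z => f (g z)) κ (fun z => ν (g z)) (fun z => L (g z))
            (fun z => t (g z)) hX hF
          have hsum : ∑ z ∈ S', h (g z) = ∑ x ∈ S.filter (fun x => 0 < x.1), h x := by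
            apply Finset.sum_nbij g
            · intro z hz
              rw [Finset.mem_filter]
              exact ⟨(hg z hz).1, (hg z hz).2.2.1⟩
            · exact hi
            · intro x hx
              rw [Finset.mem_coe, Finset.mem_filter] at hx
              obtain ⟨z, hz, rfl⟩ := hs x hx.1 hx.2
              exact ⟨z, hz, rfl⟩
            · intro z _
              rfl
          rw [← hsum]
          refine le_trans (Finset.sum_le_sum fun z hz => ?_) hR
          have h5 := szD_ge m ν (g z) (t (g z))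
          apply pow_le_pow_left₀ (div_nonneg (norm_nonneg _)
            (pow_nonneg (zero_le_one.trans h5.1) _))
          apply div_le_div_of_nonneg_left (norm_nonneg _) (by positivity)
          refine le_trans ?_ (hpw (g z) (t (g z)) A₁ hA1)
          exact pow_le_pow_left₀ (by positivity) h5.2.1 _
      have hsplit : ∑ x ∈ S, h x = ∑ x ∈ S.filter (fun x => 0 < x.1), h x +
          ∑ x ∈ S.filter (fun x => x.1 < 0), h x := by
        rw [← Finset.sum_filter_add_sum_filter_not S (fun x => 0 < x.1) h]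
        congr 1
        apply Finset.sum_congr _ fun _ _ => rfl
        apply Finset.filter_congr
        intro x hx
        have := hne x hx
        constructor <;> intro <;> omega
      change ∑ x ∈ S, h x ≤ C * X ^ (3 / 2 + ε)
      rw [hsplit]
      have h6 := hXp (3 / 2 + ε)
      nlinarith
    · -- the number of the characters
      intro η hη hη' hL
      have h6 := hXp (3 / 2 - 4 * η + ε)
      have hneg : ((S.filter (fun x => x.1 < 0)).card : ℝ) ≤ C₀ * X ^ (3 / 2 - 4 * η + ε) := by
        have h7 := hsum₂ (fun _ => 1)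
        rw [Finset.sum_const, Finset.sum_const, nsmul_eq_mul, nsmul_eq_mul, mul_one,
          mul_one] at h7
        rw [← h7]
        apply hI2 η hη hη'
        intro z hz
        obtain ⟨t, ht⟩ := hL (g₂ z) (hg₂ z hz).1
        refine ⟨t, lt_of_le_of_lt ?_ ht⟩
        rw [(hg₂ z hz).2.2.2.2.2]
        exact mul_le_mul_of_nonneg_right (hsz2 z hz t).1 (by positivity)
      have hpos : ((S.filter (fun x => 0 < x.1)).card : ℝ) ≤ C₃ * X ^ (3 / 2 - 4 * η + ε) := by
        rcases hreal with hr | ⟨x₀, _, hx₀⟩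
        · rw [Finset.filter_false_of_mem hr, Finset.card_empty]
          simp only [Nat.cast_zero]
          positivity
        · obtain ⟨K', i1, i2, τ, τ', S', g, κ, V, hF, hg, hi, hs⟩ := real_half hS x₀ hx₀
          have hcard : S'.card = (S.filter (fun x => 0 < x.1)).card := by
            apply Finset.card_nbij g
            · intro z hz
              rw [Finset.mem_coe] at hz
              rw [Finset.mem_coe, Finset.mem_filter]
              exact ⟨(hg z hz).1, (hg z hz).2.2.1⟩
            · exact hi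
            · intro x hx
              rw [Finset.mem_coe, Finset.mem_filter] at hx
              obtain ⟨z, hz, rfl⟩ := hs x hx.1 hx.2
              exact ⟨z, hz, rfl⟩
          rw [← hcard]
          apply h3 X V η K' τ τ' S' (fun z => f (g z)) κ (fun z => ν (g z)) (fun z => L (g z)) hX
            hη hη' hF
          intro z hz
          obtain ⟨t, ht⟩ := hL (g z) (hg z hz).1
          refine ⟨t, lt_of_le_of_lt ?_ ht⟩
          rw [(hg z hz).2.2.2]
          apply mul_le_mul_of_nonneg_right _ (by positivity)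
          refine le_trans ?_ (hpw (g z) t A₃ hA3)
          exact pow_le_pow_left₀ (by positivity) (szD_ge m ν (g z) t).2.1 _
      have hsplit : S.card = (S.filter (fun x => 0 < x.1)).card +
          (S.filter (fun x => x.1 < 0)).card := by
        rw [← Finset.card_filter_add_card_filter_not (s := S) (fun x => 0 < x.1)]
        congr 2
        apply Finset.filter_congr
        intro x hx
        have := hne x hx
        constructor <;> intro <;> omega
      rw [hsplit]
      push_cast
      nlinarith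
    · -- the number of the pairs
      intro η T hη hη' hL
      have h6 := hXp (1 - 4 * η + ε)
      have hTn : ∀ q ∈ T, q.1 ≠ 0 := by
        intro q hq
        obtain ⟨x, hx, hx1, -⟩ := hL q hq
        rw [← hx1]
        exact hne x hx
      have hneg : ((T.filter (fun q => q.1 < 0)).card : ℝ) ≤ C₀ * X ^ (1 - 4 * η + ε) := by
        have hinj : Set.InjOn (fun q : ℤ × ℕ => ((-q.1).toNat, q.2))
            (T.filter (fun q => q.1 < 0)) := by
          rintro ⟨a, b⟩ ha ⟨a', b'⟩ ha' hab
          rw [Finset.mem_coe, Finset.mem_filter] at ha ha'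
          have e1 : (-a).toNat = (-a').toNat := congrArg Prod.fst hab
          have e2 : b = b' := congrArg Prod.snd hab
          have e3 : a < 0 := ha.2
          have e4 : a' < 0 := ha'.2
          have e5 : a = a' := by omega
          rw [e5, e2]
        rw [← Finset.card_image_of_injOn hinj]
        apply hI3 η _ hη hη'
        intro q hq
        obtain ⟨⟨a, b⟩, hab, rfl⟩ := Finset.mem_image.1 hq
        rw [Finset.mem_filter] at hab
        obtain ⟨x, hx, hx1, hx2, t, ht⟩ := hL (a, b) hab.1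
        have ha0 : a < 0 := hab.2
        obtain ⟨z, hz, rfl⟩ := hs₂ x hx (by rw [hx1]; exact ha0)
        refine ⟨z, hz, ?_, ?_, t, lt_of_le_of_lt ?_ ht⟩
        · have e1 := (hg₂ z hz).2.1
          rw [hx1] at e1
          change z.1 = (-a).toNat
          have e2 : a = -(z.1 : ℤ) := e1
          omega
        · have e1 := (hg₂ z hz).2.2.2.1
          rw [hx2] at e1
          exact e1
        · rw [(hg₂ z hz).2.2.2.2.2]
          exact mul_le_mul_of_nonneg_right (hsz2 z hz t).1 (by positivity)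
      have hpos : ((T.filter (fun q => 0 < q.1)).card : ℝ) ≤ C₂ * X ^ (1 - 4 * η + ε) := by
        rcases hreal with hr | ⟨x₀, _, hx₀⟩
        · have hr2 : ∀ q ∈ T, ¬ 0 < q.1 := by
            intro q hq hq0
            obtain ⟨x, hx, hx1, -⟩ := hL q hq
            apply hr x hx
            rw [hx1]
            exact hq0
          rw [Finset.filter_false_of_mem hr2, Finset.card_empty]
          simp only [Nat.cast_zero]
          positivity
        · obtain ⟨K', i1, i2, τ, τ', S', g, κ, V, hF, hg, hi, hs⟩ := real_half hS x₀ hx₀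
          have hinj : Set.InjOn (fun q : ℤ × ℕ => (q.1.toNat, q.2))
              (T.filter (fun q => 0 < q.1)) := by
            rintro ⟨a, b⟩ ha ⟨a', b'⟩ ha' hab
            rw [Finset.mem_coe, Finset.mem_filter] at ha ha'
            have e1 : a.toNat = a'.toNat := congrArg Prod.fst hab
            have e2 : b = b' := congrArg Prod.snd hab
            have e3 : 0 < a := ha.2
            have e4 : 0 < a' := ha'.2
            have e5 : a = a' := by omega
            rw [e5, e2]
          rw [← Finset.card_image_of_injOn hinj]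
          apply h2 X V η K' τ τ' S' (fun z => f (g z)) κ (fun z => ν (g z)) (fun z => L (g z)) _ hX
            hη hη' hF
          intro q hq
          obtain ⟨⟨a, b⟩, hab, rfl⟩ := Finset.mem_image.1 hq
          rw [Finset.mem_filter] at hab
          obtain ⟨x, hx, hx1, hx2, t, ht⟩ := hL (a, b) hab.1
          have ha0 : 0 < a := hab.2
          obtain ⟨z, hz, rfl⟩ := hs x hx (by rw [hx1]; exact ha0)
          refine ⟨z, hz, ?_, hx2, t, lt_of_le_of_lt ?_ ht⟩
          · have e1 := (hg z hz).2.1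
            rw [hx1] at e1
            change z.1 = a.toNat
            have e2 : a = (z.1 : ℤ) := e1
            omega
          · rw [(hg z hz).2.2.2]
            apply mul_le_mul_of_nonneg_right _ (by positivity)
            refine le_trans ?_ (hpw (g z) t A₂ hA2)
            exact pow_le_pow_left₀ (by positivity) (szD_ge m ν (g z) t).2.1 _
      have hsplit : T.card = (T.filter (fun q => 0 < q.1)).card +
          (T.filter (fun q => q.1 < 0)).card := by
        rw [← Finset.card_filter_add_card_filter_not (s := T) (fun q => 0 < q.1)]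
        congr 2
        apply Finset.filter_congr
        intro q hq
        have := hTn q hq
        constructor <;> intro <;> omega
      rw [hsplit]
      push_cast
      nlinarith

end Pool.Agent.H89.DF
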