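import Pool.Agent.H61.DF.Targets
import Pool.Agent.H29.DF.Targets

/-!
# Real quadratic fields: the number of the characters of bounded spectral parameter
-/

set_option autoImplicit false

open MeasureTheory Set Filter NumberField
open scoped Real nonZeroDivisors

namespace Pool.Agent.H89.DF

open Pool.Agent.H31.CN Pool.Agent.H89.FM Pool.Agent.H61.FM Pool.Agent.H89.FC

theorem pf_HBDr (hEX : Pool.Agent.H29.DF.T_EX2) (hMUL : Pool.Agent.H61.DF.T_MULr) : T_HBDr := by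
  classical
  intro ε hε
  obtain ⟨C, hC, h⟩ := hEX ε hε
  refine ⟨4 * C, by positivity, ?_⟩
  intro K _ _ σ σ' D f V Ψ κ ν hRQ hV hΨ
  rcases Finset.eq_empty_or_nonempty Ψ with h0 | ⟨ψ₀, hψ₀⟩
  · rw [h0, Finset.card_empty]
    simp only [Nat.cast_zero]
    positivity
  have hf : 1 ≤ f := (hΨ ψ₀ hψ₀).1.pos
  have hD : 1 ≤ D := hRQ.pos
  have hf1 : (1 : ℝ) ≤ f := by exact_mod_cast hf
  have hD1 : (1 : ℝ) ≤ D := by exact_mod_cast hD
  have hY : (1 : ℝ) ≤ (D : ℝ) * (f : ℝ) ^ 2 := by nlinarith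
  obtain ⟨Y, hYd⟩ : ∃ Y : ℝ, Y = (D : ℝ) * (f : ℝ) ^ 2 := ⟨_, rfl⟩
  rw [← hYd] at hY ⊢
  have hY0 : 0 < Y := by linarith
  have key : ∀ k : ℕ, ((Ψ.filter (fun ψ => κ ψ = k)).card : ℝ) ≤
      2 * C * V ^ 2 * Y ^ (1 / 2 + ε) := by
    intro k
    have h1 := h K σ σ' D f k 1 V (fun _ => 1) (Ψ.filter (fun ψ => κ ψ = k)) ν hRQ hV le_rfl
      (fun n => by simp) (fun ψ hψ => by
        rw [Finset.mem_filter] at hψ
        obtain ⟨h2, h3⟩ := hψ
        have h4 := hΨ ψ h2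
        rw [h3] at h4
        exact h4)
    have hSq : Sq 1 = {1} := by
      unfold Sq
      ext n
      rw [Finset.mem_filter, Finset.mem_Icc, Finset.mem_singleton]
      constructor
      · rintro ⟨⟨ha, hb⟩, -⟩
        omega
      · rintro rfl
        exact ⟨⟨le_rfl, le_rfl⟩, squarefree_one⟩
    have h5 : ∑ ψ ∈ Ψ.filter (fun ψ => κ ψ = k), ‖∑ n ∈ Sq 1, (fun _ => (1 : ℂ)) n * lc ψ n‖ ^ 2 =
        ((Ψ.filter (fun ψ => κ ψ = k)).card : ℝ) := by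
      rw [Finset.sum_congr rfl (g := fun _ => (1 : ℝ)), Finset.sum_const, nsmul_eq_mul, mul_one]
      intro ψ hψ
      rw [Finset.mem_filter] at hψ
      have h6 := (hMUL K σ σ' f (κ ψ) (ν ψ) ψ (hΨ ψ hψ.1).1).1
      rw [hSq, Finset.sum_singleton, h6]
      norm_num
    rw [h5, ← hYd] at h1
    refine h1.trans ?_
    have h7 : Y ^ (1 / 2 + ε) = Y ^ (1 / 2 : ℝ) * Y ^ ε := Real.rpow_add hY0 _ _
    have h8 : (1 : ℝ) ≤ Y ^ (1 / 2 : ℝ) := Real.one_le_rpow hY (by norm_num)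
    have h9 : (0 : ℝ) < Y ^ ε := Real.rpow_pos_of_pos hY0 _
    rw [h7]
    simp only [Nat.cast_one, Real.one_rpow, mul_one]
    have h10 : C * V * (Y ^ (1 / 2 : ℝ) + 1) ≤ 2 * C * V ^ 2 * Y ^ (1 / 2 : ℝ) := by
      have h11 : V ≤ V ^ 2 := by nlinarith
      have h12 : Y ^ (1 / 2 : ℝ) + 1 ≤ 2 * Y ^ (1 / 2 : ℝ) := by linarith
      calc C * V * (Y ^ (1 / 2 : ℝ) + 1) ≤ C * V ^ 2 * (2 * Y ^ (1 / 2 : ℝ)) := by
            apply mul_le_mul _ h12 (by positivity) (by positivity)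
            exact mul_le_mul_of_nonneg_left h11 hC.le
        _ = 2 * C * V ^ 2 * Y ^ (1 / 2 : ℝ) := by ring
    calc C * V * (Y ^ (1 / 2 : ℝ) + 1) * Y ^ ε ≤ 2 * C * V ^ 2 * Y ^ (1 / 2 : ℝ) * Y ^ ε :=
          mul_le_mul_of_nonneg_right h10 h9.le
      _ = 2 * C * V ^ 2 * (Y ^ (1 / 2 : ℝ) * Y ^ ε) := by ring
  have hcard : Ψ.card = (Ψ.filter (fun ψ => κ ψ = 0)).card + (Ψ.filter (fun ψ => κ ψ = 1)).card := by
    rw [← Finset.card_filter_add_card_filter_not (s := Ψ) (fun ψ => κ ψ = 0)]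
    congr 2
    apply Finset.filter_congr
    intro ψ hψ
    have := (hΨ ψ hψ).1.kap
    omega
  rw [hcard]
  push_cast
  have k0 := key 0
  have k1 := key 1
  nlinarith

end Pool.Agent.H89.DF
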