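import Pool.Agent.H89.DF.Defs

/-!
# The twisted second moment over points on the geodesics of indefinite forms: targets
-/

set_option autoImplicit false

open MeasureTheory Set Filter
open scoped Real Matrix MatrixGroups

namespace Pool.Agent.H89.DF

open Pool.Agent.H31.CN Pool.Agent.H89.FM Pool.Agent.H89.FC

/-- the real forms of the box with the parameter `ρ` -/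
structure Bxr (Y ρ : ℝ) (P : ℝ × ℝ × ℝ) : Prop where
  a : ρ * |P.1| ≤ 100 * Y
  b : |P.2.1| ≤ 100 * Y
  c : |P.2.2| ≤ 100 * Y * ρ

/-- the form `v ↦ Q (v.1 + j v.2, v.2)` -/
def tq (j : ℤ) (Q : QF) : QF := (Q.1, Q.2.1 + 2 * Q.1 * j, Q.1 * j ^ 2 + Q.2.1 * j + Q.2.2)

/-! ### The large sieve inequality for a class of forms modulo `p` -/

/-- (GRPr) grouping in blocks, with a shift. -/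
def T_GRPr : Prop :=
  ∃ C : ℝ, 0 ≤ C ∧ ∀ (ρ η Λ A M : ℝ) (I : Finset Ix) (c : Ix → ℝ) (μ : ℕ × ℕ → ℝ × ℝ × ℝ)
    (θ : ℝ × ℝ × ℝ),
    1 ≤ ρ → 0 < η → 1 ≤ Λ → 1 ≤ A → 0 ≤ M → (∀ x ∈ I, Iv ρ A x) →
    (∀ x ∈ I, η * nr ρ x.1 ≤ Λ) → (∀ x ∈ I, 0 ≤ c x) →
    (∀ x ∈ I, c x ^ 2 * (x.2.1.1 : ℝ) ^ 4 * (x.2.2.1 : ℝ) ^ 2 * nr ρ x.1 ≤ M) →
    ∑ x ∈ I, ∑ y ∈ I.filter (fun y => y.1 ≠ x.1), c x * c y * nz ρ η (lam μ x - lam μ y + θ) ≤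
      C * Λ ^ 3 * M *
        ∑ a ∈ I.image (fun x => (x.1, x.2.1.1, Nat.log 2 x.2.2.1)),
          ∑ b ∈ (I.image (fun x => (x.1, x.2.1.1, Nat.log 2 x.2.2.1))).filter
            (fun b => b.1 ≠ a.1), hw ρ η a * hw ρ η b

/-- (OFFr) the off-diagonal terms, with a shift. -/
def T_OFFr : Prop :=
  ∀ ε : ℝ, 0 < ε → ∃ d0 : ℝ, 0 < d0 ∧ ∀ δ : ℝ, 0 < δ → δ ≤ d0 → ∃ C : ℝ, 0 ≤ C ∧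
    ∀ (Y ρ A M : ℝ) (P θ : ℝ × ℝ × ℝ) (I : Finset Ix) (c : Ix → ℂ) (μ : ℕ × ℕ → ℝ × ℝ × ℝ),
      1 ≤ Y → 1 ≤ ρ → ρ ≤ Y → 1 ≤ A → A ≤ Y ^ (1 + δ) → 0 ≤ M → (∀ x ∈ I, Iv ρ A x) →
      (∀ x ∈ I, ‖c x‖ ^ 2 * (x.2.1.1 : ℝ) ^ 4 * (x.2.2.1 : ℝ) ^ 2 * nr ρ x.1 ≤ M) →
      ‖∑' Q : QF, (ga (Y ^ (1 - δ)) ρ P Q : ℂ) * ∑ x ∈ I, ∑ y ∈ I.filter (fun y => y.1 ≠ x.1),
        c x * (starRingEnd ℂ) (c y) * ee Q (lam μ x - lam μ y + θ)‖ ≤ C * Y ^ (3 + ε) * ρ * M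

open Classical in
/-- (DIAr) the diagonal terms for the forms congruent to an anisotropic form modulo `p`. -/
def T_DIAr : Prop :=
  ∀ ε : ℝ, 0 < ε → ∃ d0 : ℝ, 0 < d0 ∧ ∀ δ : ℝ, 0 < δ → δ ≤ d0 → ∃ C : ℝ, 0 ≤ C ∧
    ∀ (Y ρ A M : ℝ) (P : ℝ × ℝ × ℝ) (p : ℕ) (Q₀ : QF) (F : Finset (ℤ × ℤ))
      (G : ℤ × ℤ → QF → ℂ),
      1 ≤ Y → 1 ≤ ρ → ρ ≤ Y → 1 ≤ A → A ≤ Y ^ (1 + δ) → 0 ≤ M → Bxr Y ρ P → p.Prime →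
      Anis p Q₀ →
      (∀ w ∈ F, Int.gcd w.1 w.2 = 1 ∧ (0 < w.2 ∨ w = (1, 0)) ∧ nr ρ w ≤ 2 * A) →
      (∀ w ∈ F, ∀ Q, ‖G w Q‖ ≤ Real.sqrt (M / nr ρ w) * Tw A w Q) →
      Summable (fun Q : QF => if Cgr p Q Q₀ then
        ga (Y ^ (1 - δ)) ρ P Q * ∑ w ∈ F, ‖G w Q‖ ^ 2 else 0) ∧
      ∑' Q : QF, (if Cgr p Q Q₀ then
        ga (Y ^ (1 - δ)) ρ P Q * ∑ w ∈ F, ‖G w Q‖ ^ 2 else 0) ≤ C * Y ^ (3 + ε) * ρ * M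

/-- (LSr) the large sieve inequality for a class of anisotropic forms modulo `p`. -/
def T_LSr : Prop :=
  ∀ ε : ℝ, 0 < ε → ∃ d0 : ℝ, 0 < d0 ∧ ∀ δ : ℝ, 0 < δ → δ ≤ d0 → ∃ C : ℝ, 0 ≤ C ∧
    ∀ (Y ρ A M : ℝ) (P : ℝ × ℝ × ℝ) (p : ℕ) (Q₀ : QF) (S : Finset QF) (c : ℕ → AddSubgroup (ℤ × ℤ) → ℂ),
      1 ≤ Y → 1 ≤ ρ → ρ ≤ Y → 1 ≤ A → A ≤ Y ^ (1 + δ) → 0 ≤ M → Bxr Y ρ P → p.Prime →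
      Anis p Q₀ → (∀ Q ∈ S, Cgr p Q Q₀ ∧ dq ρ P (rl Q) ≤ Y ^ (2 - 2 * δ)) →
      (∀ n ∈ Sq ⌊A⌋₊, ∀ L ∈ Ls n, ‖c n L‖ ^ 2 * (n : ℝ) ^ 2 * mn ρ L ≤ M) →
      ∑ Q ∈ S, ‖∑ n ∈ Sq ⌊A⌋₊, ∑ L ∈ Ls n, c n L * (Rn n L Q : ℂ)‖ ^ 2 ≤
        C * Y ^ (3 + ε) * ρ * M

/-! ### Twisted sums at arbitrary points -/

/-- (EXPr) the expansion of the twisted sums. -/
def T_EXPr : Prop :=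
  ∀ κ : ℝ, 0 < κ → κ ≤ 1 / 8 → ∃ C : ℝ, 0 ≤ C ∧ ∀ (m : ℤ) (s : ℂ) (N : ℕ) (α : ℕ → ℂ),
    |s.re - 1 / 2| ≤ κ → 1 ≤ N → (∀ n, ‖α n‖ ≤ 1) → ∃ β : ℕ → ℂ,
      (∀ n ∈ Sq N, ‖β n‖ ≤ C * ((N : ℝ) / n) ^ (1 / 2 + 2 * κ)) ∧
      ∀ (Q : QF) (x y : ℝ), 0 < y → Bz m s α N Q x y =
        ∑ n ∈ Sq N, ∑ L ∈ Ls n, β n / n * Em m s n L x y * (Rn n L Q : ℂ)

/-- (CELr) the twisted second moment over a cell, for a class of anisotropic forms modulo `p`. -/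
def T_CELr : Prop :=
  ∀ ε : ℝ, 0 < ε → ∃ κ : ℝ, 0 < κ ∧ κ ≤ 1 / 8 ∧ ∃ δ : ℝ, 0 < δ ∧ δ ≤ 1 / 8 ∧ δ ≤ ε / 10 ∧
    ∃ (C : ℝ) (k : ℕ), 0 ≤ C ∧
    ∀ (m : ℤ) (s : ℂ) (Y ρ c₁ c₂ : ℝ) (P : ℝ × ℝ × ℝ) (p N : ℕ) (Q₀ : QF) (α : ℕ → ℂ)
      (S : Finset QF) (x y : QF → ℝ),
      |s.re - 1 / 2| ≤ κ → 1 ≤ Y → 1 ≤ ρ → ρ ≤ Y → 1 ≤ N → (N : ℝ) ≤ Y ^ (1 + δ) →
      (∀ n, ‖α n‖ ≤ 1) → Bxr Y ρ P → p.Prime → Anis p Q₀ → |c₁| ≤ 4 * ρ → ρ / 5 ≤ c₂ →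
      c₂ ≤ 2 * ρ →
      (∀ Q ∈ S, Cgr p Q Q₀ ∧ 0 < y Q ∧ dq ρ P (rl Q) ≤ Y ^ (2 - 2 * δ) ∧
        5000 * (1 + |s.im| + |(m : ℝ)|) * |x Q - c₁| ≤ ρ ∧
        5000 * (1 + |s.im| + |(m : ℝ)|) * |y Q - c₂| ≤ ρ) →
      ∑ Q ∈ S, ‖Bz m s α N Q (x Q) (y Q)‖ ^ 2 ≤
        C * (1 + |s.im| + |(m : ℝ)|) ^ k * cG m.natAbs s.im ^ 2 * Y ^ (3 + ε) * ρ * N

/-- (BOXr) the twisted second moment over a box, for the forms which are anisotropic modulo `p`. -/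
def T_BOXr : Prop :=
  ∀ ε : ℝ, 0 < ε → ∃ κ : ℝ, 0 < κ ∧ κ ≤ 1 / 8 ∧ ∃ δ : ℝ, 0 < δ ∧ δ ≤ 1 / 8 ∧
    ∃ (C : ℝ) (k : ℕ), 0 ≤ C ∧
    ∀ (m : ℤ) (s : ℂ) (Y ρ : ℝ) (p N : ℕ) (α : ℕ → ℂ) (S : Finset QF) (x y : QF → ℝ),
      |s.re - 1 / 2| ≤ κ → 1 ≤ Y → 1 ≤ ρ → ρ ≤ Y → 1 ≤ N → (N : ℝ) ≤ Y ^ (1 + δ) →
      (∀ n, ‖α n‖ ≤ 1) → p.Prime →
      (∀ Q ∈ S, Anis p Q ∧ ρ * |(Q.1 : ℝ)| ≤ 5 * Y ∧ |(Q.2.1 : ℝ)| ≤ 5 * Y ∧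
        |(Q.2.2 : ℝ)| ≤ 5 * Y * ρ ∧ |x Q| ≤ 2 * ρ ∧ ρ / 2 ≤ y Q ∧ y Q ≤ ρ) →
      ∑ Q ∈ S, ‖Bz m s α N Q (x Q) (y Q)‖ ^ 2 ≤
        C * (p : ℝ) ^ 3 * (1 + |s.im| + |(m : ℝ)|) ^ k * cG m.natAbs s.im ^ 2 *
          Y ^ (3 + ε) * ρ * N

/-- (BIVr) the invariance of the twisted sums and of the conditions. -/
def T_BIVr : Prop :=
  ∀ (m : ℤ) (s : ℂ) (α : ℕ → ℂ) (N p : ℕ) (Q : QF) (g : SL(2, ℤ)) (x y : ℝ), 0 < y →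
    0 < gd g x y ∧ 0 < gy g x y ∧ dsc (act Q g) = dsc Q ∧ (Anis p Q → Anis p (act Q g)) ∧
    (Geo Q x y → Geo (act Q g) (gx g x y) (gy g x y)) ∧
    (∀ h : SL(2, ℤ), gx h (gx g x y) (gy g x y) = gx (g * h) x y ∧
      gy h (gx g x y) (gy g x y) = gy (g * h) x y) ∧
    ‖Bz m s α N (act Q g) (gx g x y) (gy g x y)‖ = ‖Bz m s α N Q x y‖

/-- (REDr) reduction of points. -/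
def T_REDr : Prop :=
  ∀ x y : ℝ, 0 < y → ∃ g : SL(2, ℤ), |gx g x y| ≤ 1 / 2 ∧ 1 / 2 ≤ gy g x y

open Classical in
/-- (TM1r) the twisted second moment over reduced points, with weights. -/
def T_TM1r : Prop :=
  ∀ ε : ℝ, 0 < ε → ∃ κ : ℝ, 0 < κ ∧ κ ≤ 1 / 8 ∧ ∃ δ : ℝ, 0 < δ ∧ ∃ (C : ℝ) (k : ℕ), 0 ≤ C ∧
    ∀ (Ω : Type) (S : Finset Ω) (Q : Ω → QF) (x y w : Ω → ℝ) (m : ℤ) (s : ℂ) (Y B : ℝ) (p N : ℕ)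
      (α : ℕ → ℂ), |s.re - 1 / 2| ≤ κ → 1 ≤ Y → 1 ≤ N → (N : ℝ) ≤ Y ^ (1 + δ) →
      (∀ n, ‖α n‖ ≤ 1) → p.Prime → 0 ≤ B →
      (∀ i ∈ S, Anis p (Q i) ∧ -(dsc (Q i) : ℝ) ≤ Y ^ 2 ∧
        |x i| ≤ 1 / 2 ∧ 1 / 2 ≤ y i ∧ Geo (Q i) (x i) (y i) ∧ 0 ≤ w i) →
      (∀ R : QF, ∑ i ∈ S.filter (fun i => ∃ j : ℤ, tq j (Q i) = R), w i ≤ B) →
      ∑ i ∈ S, w i * ‖Bz m s α N (Q i) (x i) (y i)‖ ^ 2 ≤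
        B * C * (p : ℝ) ^ 3 * (1 + |s.im| + |(m : ℝ)|) ^ k * cG m.natAbs s.im ^ 2 *
          Y ^ (3 + ε) * N

end Pool.Agent.H89.DF
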