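import Pool.Agent.H10.DF.ALS
import Pool.Agent.H10.DF.AXL
import Pool.Agent.H11.DF.APT
import Pool.Agent.H11.DF.KRE
import Pool.Agent.H11.DF.NCO
import Pool.Agent.H14.DF.XHB
import Pool.Agent.H14.DF.XHI
import Pool.Agent.H16.DF.ALN
import Pool.Agent.H19.DFX.XKS
import Pool.Agent.H19.DFX.XSP
import Pool.Agent.H21.DF.AF1
import Pool.Agent.H23.DF.KRBr
import Pool.Agent.H26.DF.APG
import Pool.Agent.H29.DF.ASU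
import Pool.Agent.H29.DF.ATW
import Pool.Agent.H29.DF.XE2
import Pool.Agent.H29.DF.XEF
import Pool.Agent.H30.DF.ADX
import Pool.Agent.H30.DF.APH
import Pool.Agent.H30.DF.AUA
import Pool.Agent.H33.DF.NC2
import Pool.Agent.H34.DF.NF2
import Pool.Agent.H35.DF.NMU
import Pool.Agent.H35.DF.NSP
import Pool.Agent.H35.DF.XHS
import Pool.Agent.H38.DF.AFB
import Pool.Agent.H39.DF.BBE
import Pool.Agent.H39.DF.NTR
import Pool.Agent.H39.DF.XHC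
import Pool.Agent.H40.DF.LEC
import Pool.Agent.H42.DF.AND
import Pool.Agent.H42.DF.ATY
import Pool.Agent.H42.DF.KBO
import Pool.Agent.H42.DF.KCE
import Pool.Agent.H47.DF.ACN
import Pool.Agent.H47.DF.AHL
import Pool.Agent.H48.DF.LCE
import Pool.Agent.H48.DF.LEJ
import Pool.Agent.H48.DF.NPB
import Pool.Agent.H48.DF.XE1
import Pool.Agent.H54.DF.AL0
import Pool.Agent.H54.DF.NFS
import Pool.Agent.H55.DF.ACH
import Pool.Agent.H55.DF.NMO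
import Pool.Agent.H58.DF.AFM
import Pool.Agent.H58.DF.ATF
import Pool.Agent.H58.DF.AUW
import Pool.Agent.H58.DF.AVI
import Pool.Agent.H58.DF.AWG
import Pool.Agent.H58.DF.KDI
import Pool.Agent.H58.DF.KGR
import Pool.Agent.H58.DF.KOF
import Pool.Agent.H61.DF.APR
import Pool.Agent.H63.DF.BGR
import Pool.Agent.H64.DF.AF2
import Pool.Agent.H66.DF.AOR
import Pool.Agent.H68.DF.AEM
import Pool.Agent.H68.DF.BUN
import Pool.Agent.H68.DF.BUR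
import Pool.Agent.H69.DF.ARH
import Pool.Agent.H69.DF.AUE
import Pool.Agent.H69.DF.AUN
import Pool.Agent.H70.DF.LCR
import Pool.Agent.H77.DF.KBI
import Pool.Agent.H77.DF.KTM
import Pool.Agent.H77.DF.NAB
import Pool.Agent.H77.DF.NDV
import Pool.Agent.H78.DF.AVA
import Pool.Agent.H78.DF.NCR
import Pool.Agent.H81.DF.AWN
import Pool.Agent.H86.DF.AFK
import Pool.Agent.H86.DF.AMU
import Pool.Agent.H86.DF.KT1
import Pool.Agent.H86.DF.NF1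
import Pool.Agent.H90.DF.AVO
import Pool.Agent.H90.DF.AWC
import Pool.Agent.H90.DF.LKM
import Pool.Agent.H90.DF.LTA
import Pool.Agent.H91.DF.BSE
import Pool.Agent.H91.DF.LCI
import Pool.Agent.H94.DF.KEX
import Pool.Agent.H94.DF.KLS
import Pool.Agent.H95.DFA.AFD
import Pool.Agent.H95.DFA.ALC
import Pool.Agent.H95.DFA.APA
import Pool.Agent.H95.DFA.APV
import Pool.Agent.H95.DFA.ASM
import Pool.Agent.H95.DFA.ATG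
import Pool.Agent.H96.DF.AOB
import Pool.Agent.H97.DF.AVC
import Pool.Agent.H98.DF.ANC
import Pool.Agent.H98.DF.NMT
import Pool.Agent.H89.FC.Asm
import Pool.Agent.H89.DF.Fin3
import Pool.Agent.H89.DF.HBD
import Pool.Agent.H89.DF.CRX

/-!
# Real quadratic fields: assembly
-/

set_option autoImplicit false

open Pool.Agent.H89.DF

namespace Pool.Agent.H89.DF

theorem e_ACH : Pool.Agent.H95.DR.T_CHXr :=
  Pool.Agent.H55.DF.pf_CHXr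

theorem e_ACN : Pool.Agent.H95.DR.T_CNTr :=
  Pool.Agent.H47.DF.pf_CNTr Pool.Agent.H89.FC.d_ATRN Pool.Agent.H56.CF.pf_PRN

theorem e_AEM : Pool.Agent.H95.DR.T_EMB :=
  Pool.Agent.H68.DF.pf_EMB

theorem e_AFD : Pool.Agent.H95.DR.T_FDUr :=
  Pool.Agent.H95.DF.pf_FDUr

theorem e_AL0 : Pool.Agent.H95.DR.T_LS1 :=
  Pool.Agent.H54.DF.pf_LS1 Pool.Agent.H89.FM.c_FLS

theorem e_ALC : Pool.Agent.H95.DR.T_LC1r :=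
  Pool.Agent.H95.DF.pf_LC1r Pool.Agent.H56.CF.pf_PRN

theorem e_AND : Pool.Agent.H95.DR.T_NID :=
  Pool.Agent.H42.DF.pf_NID

theorem e_AOB : Pool.Agent.H95.DR.T_OBGr :=
  Pool.Agent.H96.DF.pf_OBGr e_AEM

theorem e_APA : Pool.Agent.H95.DR.T_PARr :=
  Pool.Agent.H95.DF.pf_PARr

theorem e_APT : Pool.Agent.H95.DR.T_PBT :=
  Pool.Agent.H11.DF.pf_PBT Pool.Agent.H89.FC.d_AFLF

theorem e_ATY : Pool.Agent.H95.DR.T_TYR :=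
  Pool.Agent.H42.DF.pf_TYR

theorem e_AUA : Pool.Agent.H95.DR.T_UAC :=
  Pool.Agent.H30.DF.pf_UAC

theorem e_AUE : Pool.Agent.H95.DR.T_UEX :=
  Pool.Agent.H69.DF.pf_UEX e_AEM

theorem e_AUW : Pool.Agent.H95.DR.T_UWN :=
  Pool.Agent.H58.DF.pf_UWN e_AEM e_ATY

theorem e_AVI : Pool.Agent.H95.DR.T_VIGr :=
  Pool.Agent.H58.DF.pf_VIGr e_AEM

theorem e_AWN : Pool.Agent.H95.DR.T_WND :=
  Pool.Agent.H81.DF.pf_WND e_AUW e_ATY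

theorem e_BBE : Pool.Agent.H89.DF.T_BES :=
  Pool.Agent.H39.DF.pf_BES

theorem e_BGR : Pool.Agent.H89.DF.T_GRD :=
  Pool.Agent.H63.DF.pf_GRD

theorem e_BSE : Pool.Agent.H89.DF.T_SEP :=
  Pool.Agent.H91.DF.pf_SEP

theorem e_BUN : Pool.Agent.H89.DF.T_UNF :=
  Pool.Agent.H68.DF.pf_UNF

theorem e_BUR : Pool.Agent.H89.DF.T_UNR :=
  Pool.Agent.H68.DF.pf_UNR e_BUN

theorem e_KBI : Pool.Agent.H89.DF.T_BIVr :=
  Pool.Agent.H77.DF.pf_BIVr Pool.Agent.H89.FM.c_FLS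

theorem e_KDI : Pool.Agent.H89.DF.T_DIAr :=
  Pool.Agent.H58.DF.pf_DIAr Pool.Agent.H89.FM.c_PTW Pool.Agent.H89.FM.c_TRV Pool.Agent.H89.FM.c_GMA Pool.Agent.H89.FM.c_WSM

theorem e_KEX : Pool.Agent.H89.DF.T_EXPr :=
  Pool.Agent.H94.DF.pf_EXPr Pool.Agent.H89.FM.c_FLS Pool.Agent.H89.FM.c_CRT Pool.Agent.H89.FM.c_RFM Pool.Agent.H89.FC.d_KHE Pool.Agent.H89.FM.c_IND Pool.Agent.H89.FM.c_GCD

theorem e_KGR : Pool.Agent.H89.DF.T_GRPr :=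
  Pool.Agent.H58.DF.pf_GRPr Pool.Agent.H89.FM.c_CNT

theorem e_KOF : Pool.Agent.H89.DF.T_OFFr :=
  Pool.Agent.H58.DF.pf_OFFr Pool.Agent.H89.FM.c_PN3 Pool.Agent.H89.FM.c_TAL Pool.Agent.H89.FM.c_NI e_KGR Pool.Agent.H89.FM.c_HG Pool.Agent.H89.FM.c_H1

theorem e_KRE : Pool.Agent.H89.DF.T_REDr :=
  Pool.Agent.H11.DF.pf_REDr

theorem e_LEC : Pool.Agent.H89.DF.T_EZC :=
  Pool.Agent.H40.DF.pf_EZC Pool.Agent.H89.FM.c_THL Pool.Agent.H89.FM.c_THH Pool.Agent.H89.FC.d_KME Pool.Agent.H89.FC.d_KPS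

theorem e_LEJ : Pool.Agent.H89.DF.T_EJC :=
  Pool.Agent.H48.DF.pf_EJC

theorem e_LKB : Pool.Agent.H89.DF.T_KRBr :=
  Pool.Agent.H23.DF.pf_KRBr Pool.Agent.H89.FC.d_KRB

theorem e_LKM : Pool.Agent.H89.DF.T_KMG :=
  Pool.Agent.H90.DF.pf_KMG

theorem e_LTA : Pool.Agent.H89.DF.T_TRA :=
  Pool.Agent.H90.DF.pf_TRA

theorem e_NDV : Pool.Agent.H61.DF.T_DVBr :=
  Pool.Agent.H77.DF.pf_DVBr e_AND

theorem e_NMU : Pool.Agent.H61.DF.T_MULr :=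
  Pool.Agent.H35.DF.pf_MULr

theorem e_NSP : Pool.Agent.H61.DF.T_SPTr :=
  Pool.Agent.H35.DF.pf_SPTr e_NDV

theorem e_XHC : Pool.Agent.H29.DF.T_XHC :=
  Pool.Agent.H39.DF.pf_XHC e_AWN Pool.Agent.H89.FC.d_ATRN e_AEM

theorem e_XHI : Pool.Agent.H29.DF.T_XHI :=
  Pool.Agent.H14.DF.pf_XHI e_BUN e_BUR e_AUA e_AUW e_ATY e_AEM

theorem e_XKS : Pool.Agent.H29.DF.T_KSM :=
  Pool.Agent.H19.DFX.pf_XKS e_AND

theorem e_ADX : Pool.Agent.H95.DR.T_DDX :=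
  Pool.Agent.H30.DF.pf_DDX e_AOB e_AVI Pool.Agent.H89.FC.d_ALTX e_AUE

theorem e_AFB : Pool.Agent.H95.DR.T_FBRr :=
  Pool.Agent.H38.DF.pf_FBRr e_APA Pool.Agent.H56.CF.pf_PRN

theorem e_ALN : Pool.Agent.H95.DR.T_LINr :=
  Pool.Agent.H16.DF.pf_LINr e_AVI e_AEM

theorem e_ALS : Pool.Agent.H95.DR.T_LSUr :=
  Pool.Agent.H10.DF.pf_LSUr e_AVI e_ALN e_AEM

theorem e_APH : Pool.Agent.H95.DR.T_PHX :=
  Pool.Agent.H30.DF.pf_PHX e_LTA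

theorem e_ARH : Pool.Agent.H95.DR.T_RHOr :=
  Pool.Agent.H69.DF.pf_RHOr e_APA e_ATY Pool.Agent.H56.CF.pf_PRN

theorem e_ASM : Pool.Agent.H95.DR.T_SML :=
  Pool.Agent.H95.DF.pf_SML e_AND e_AWN

theorem e_ATW : Pool.Agent.H95.DR.T_TWSr :=
  Pool.Agent.H29.DF.pf_TWSr e_AWN e_AUW

theorem e_KLS : Pool.Agent.H89.DF.T_LSr :=
  Pool.Agent.H94.DF.pf_LSr e_KOF e_KDI Pool.Agent.H89.FM.c_IDX Pool.Agent.H89.FM.c_PN3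

theorem e_LCI : Pool.Agent.H89.DF.T_CRI :=
  Pool.Agent.H91.DF.pf_CRI e_LTA

theorem e_LCR : Pool.Agent.H89.DF.T_CRL :=
  Pool.Agent.H70.DF.pf_CRL e_LTA e_LCI

theorem e_NAB : Pool.Agent.H61.DF.T_ABSr :=
  Pool.Agent.H77.DF.pf_ABSr e_NSP

theorem e_AOR : Pool.Agent.H95.DR.T_ORTr :=
  Pool.Agent.H66.DF.pf_ORTr Pool.Agent.H89.FC.x_RGE e_ACH e_AFB e_ACN e_ARH e_ALC e_ATY Pool.Agent.H56.CF.pf_PRN

theorem e_APG : Pool.Agent.H95.DR.T_PBG :=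
  Pool.Agent.H26.DF.pf_PBG e_APH

theorem e_APR : Pool.Agent.H95.DR.T_PRIr :=
  Pool.Agent.H61.DF.pf_PRIr Pool.Agent.H89.FC.d_ATRN e_ATY e_ARH Pool.Agent.H56.CF.pf_PRN

theorem e_AUN : Pool.Agent.H95.DR.T_UNW :=
  Pool.Agent.H69.DF.pf_UNW e_BUN e_AUA e_APH e_APG e_APT e_ASM e_ATY e_LTA e_AUW

theorem e_AVA : Pool.Agent.H95.DR.T_VANr :=
  Pool.Agent.H78.DF.pf_VANr e_APR Pool.Agent.H89.FC.d_AVNT

theorem e_AVC : Pool.Agent.H95.DR.T_VOC :=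
  Pool.Agent.H97.DF.pf_VOC e_BUR e_AUA e_KRE e_APG e_APT e_ATY e_AWN e_AUW e_AND

theorem e_AVO : Pool.Agent.H95.DR.T_VOLr :=
  Pool.Agent.H90.DF.pf_VOLr e_AVC Pool.Agent.H89.FC.d_ATCB e_AUW

theorem e_KCE : Pool.Agent.H89.DF.T_CELr :=
  Pool.Agent.H42.DF.pf_CELr e_KLS Pool.Agent.H89.FC.d_KEB Pool.Agent.H89.FC.d_KEC Pool.Agent.H89.FM.c_CAS Pool.Agent.H89.FC.d_KRO e_KEX Pool.Agent.H89.FM.c_FLS Pool.Agent.H89.FM.c_MIN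

theorem e_LCE : Pool.Agent.H89.DF.T_CRE :=
  Pool.Agent.H48.DF.pf_CRE e_LTA e_LCI

theorem e_XSP : Pool.Agent.H29.DF.T_XSP :=
  Pool.Agent.H19.DFX.pf_XSP e_AEM e_APG e_APT Pool.Agent.H89.FC.d_ATRN e_BSE

theorem e_AFM : Pool.Agent.H95.DR.T_FRMr :=
  Pool.Agent.H58.DF.pf_FRMr e_APG e_APT

theorem e_AHL : Pool.Agent.H95.DR.T_HOLr :=
  Pool.Agent.H47.DF.pf_HOLr e_LEJ Pool.Agent.H89.FC.d_KEZ e_APG e_APH

theorem e_AMU : Pool.Agent.H95.DR.T_MULr :=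
  Pool.Agent.H86.DF.pf_MULr e_AUW e_ATY e_APT e_APG Pool.Agent.H89.FC.d_AFLF Pool.Agent.H89.FC.d_ATRN Pool.Agent.H56.CF.pf_PRN

theorem e_ANC : Pool.Agent.H95.DR.T_NCUr :=
  Pool.Agent.H98.DF.pf_NCUr Pool.Agent.H89.FC.d_ATRN e_ARH e_APR

theorem e_ASU : Pool.Agent.H95.DR.T_SUMr :=
  Pool.Agent.H29.DF.pf_SUMr e_ANC e_ARH e_ATY

theorem e_AWC : Pool.Agent.H95.DR.T_WCL :=
  Pool.Agent.H90.DF.pf_WCL e_AUN e_ASU e_ATW e_ALC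

theorem e_AWG : Pool.Agent.H95.DR.T_WGTr :=
  Pool.Agent.H58.DF.pf_WGTr e_AUW e_APT e_APG e_AMU

theorem e_KBO : Pool.Agent.H89.DF.T_BOXr :=
  Pool.Agent.H42.DF.pf_BOXr e_KCE

theorem e_KT1 : Pool.Agent.H89.DF.T_TM1r :=
  Pool.Agent.H86.DF.pf_TM1r e_KBO e_KBI

theorem e_KTM : Pool.Agent.H89.DF.T_TMr :=
  Pool.Agent.H77.DF.pf_TMr e_KT1 e_KRE e_KBI

theorem e_XHB : Pool.Agent.H29.DF.T_XHB :=
  Pool.Agent.H14.DF.pf_XHB e_XSP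

theorem e_XHS : Pool.Agent.H29.DF.T_XHS :=
  Pool.Agent.H35.DF.pf_XHS e_ASU e_ATW e_AEM e_AUW

theorem e_AF1 : Pool.Agent.H95.DR.T_LF1r :=
  Pool.Agent.H21.DF.pf_LF1r e_AWC e_AVA Pool.Agent.H89.FC.d_ATWN Pool.Agent.H89.FC.d_ATNB e_AFM e_ALC Pool.Agent.H89.FC.d_KEZ e_ALN e_ALS Pool.Agent.H89.FM.c_FLS Pool.Agent.H89.FM.c_GEN Pool.Agent.H89.FM.c_CRT e_AHL e_APT e_APG e_LCI

theorem e_AF2 : Pool.Agent.H95.DR.T_LF2r :=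
  Pool.Agent.H64.DF.pf_LF2r e_AF1 e_AHL e_LCI e_APT

theorem e_AFK : Pool.Agent.H89.DF.T_LFKr :=
  Pool.Agent.H86.DF.pf_LFKr e_AF2 e_AWC Pool.Agent.H89.FC.d_KRO e_LKM e_AFM Pool.Agent.H89.FC.d_AFLF Pool.Agent.H89.FM.c_GEN Pool.Agent.H89.FM.c_FLS e_ALC e_AL0 e_ADX e_APG e_APT

theorem e_APV : Pool.Agent.H95.DR.T_PVFr :=
  Pool.Agent.H95.DF.pf_PVFr e_AF2 e_AOR e_BBE e_AHL e_APT e_APH e_AUW

theorem e_ATG : Pool.Agent.H95.DR.T_TMGr :=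
  Pool.Agent.H95.DF.pf_TMGr e_KTM e_APV e_AVO e_AWG e_BGR Pool.Agent.H89.FC.d_KGM e_AFD e_ADX e_AHL e_APT e_APG e_AUW Pool.Agent.H89.FC.d_AFLF

theorem e_AXL : Pool.Agent.H89.DF.T_EXLr :=
  Pool.Agent.H10.DF.pf_EXLr e_AF1 e_AHL (Pool.Agent.H89.DF.pf_CRX e_LCE) Pool.Agent.H89.FC.d_KE0 e_LEC e_ALC e_AL0 e_ADX e_ASM e_APT Pool.Agent.H89.FM.c_FLS e_AUW

theorem e_NPB : Pool.Agent.H61.DF.T_PBDr :=
  Pool.Agent.H48.DF.pf_PBDr e_AFK e_LKB e_LCR e_NAB Pool.Agent.H89.FC.d_KGM e_NSP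

theorem e_NTR : Pool.Agent.H61.DF.T_TRBr :=
  Pool.Agent.H39.DF.pf_TRBr e_NPB e_NSP

theorem e_XE1 : Pool.Agent.H29.DF.T_EX1 :=
  Pool.Agent.H48.DF.pf_XE1 e_AFK e_LKB e_LCR Pool.Agent.H89.FC.d_KGM e_XKS

theorem e_XE2 : Pool.Agent.H29.DF.T_EX2 :=
  Pool.Agent.H29.DF.pf_XE2 e_BBE e_AOR e_AVO e_AND e_ALC e_ADX e_AUW e_XHB e_XHI e_XHS e_XHC

theorem e_XEF : Pool.Agent.H29.DF.T_EXF :=
  Pool.Agent.H29.DF.pf_XEF e_XE1 e_XE2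

theorem e_ATF : Pool.Agent.H89.DF.T_TMFr :=
  Pool.Agent.H58.DF.pf_TMFr e_ATG e_LCR e_XEF

theorem e_NCR : Pool.Agent.H61.DF.T_CRDr :=
  Pool.Agent.H78.DF.pf_CRDr (Pool.Agent.H89.DF.pf_HBDr e_XE2 e_NMU)

theorem e_NMO : Pool.Agent.H61.DF.T_MOSr :=
  Pool.Agent.H55.DF.pf_MOSr e_ATF e_NMU Pool.Agent.H61.FM.a_SQD Pool.Agent.H61.FM.a_SFS e_NDV

theorem e_NMT : Pool.Agent.H61.DF.T_MOTr :=
  Pool.Agent.H98.DF.pf_MOTr e_NMO e_NSP e_NTR e_NCR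

theorem e_NFS : Pool.Agent.H61.DF.T_FMSr :=
  Pool.Agent.H54.DF.pf_FMSr e_NMT e_NPB e_NSP

theorem e_NF1 : Pool.Agent.H61.DF.T_FM1r :=
  Pool.Agent.H86.DF.pf_FM1r Pool.Agent.H61.FM.a_SUP e_NFS e_NTR

theorem e_NF2 : Pool.Agent.H89.DF.T_FM2r :=
  Pool.Agent.H34.DF.pf_FM2r e_NF1

theorem e_NC2 : Pool.Agent.H89.DF.T_CO2r :=
  Pool.Agent.H33.DF.pf_CO2r e_NF2

theorem e_NCO : Pool.Agent.H89.DF.T_CORr :=
  Pool.Agent.H11.DF.pf_CORr e_NF2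


end Pool.Agent.H89.DF
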