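import Pool.Agent.H89.DF.TargetsF
import Pool.Agent.H89.FC.All

/-!
# The dihedral `L`-functions: the final theorem from the parts

The union of the family of the real quadratic fields and of the family of the imaginary quadratic
fields.
-/

set_option autoImplicit false

open MeasureTheory Set Filter NumberField
open scoped Real nonZeroDivisors

namespace Pool.Agent.H89.DF

open Pool.Agent.H31.CN Pool.Agent.H89.FM Pool.Agent.H61.FM Pool.Agent.H89.FC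

/-! ### The statement -/

/-- the infinity type `(u / |u|) ^ m |u| ^ (i ν)`, `u = σ a / σ' a` -/
noncomputable def itype {K : Type} [Field K] (σ σ' : K →+* ℂ) (m : ℤ) (ν : ℝ) (a : K) : ℂ :=
  (σ a / σ' a / ((‖σ a / σ' a‖ : ℝ) : ℂ)) ^ m *
    ((‖σ a / σ' a‖ : ℝ) : ℂ) ^ ((ν : ℂ) * Complex.I)

/-- primitive Hecke characters, trivial on `ℚ` -/
def IsHeckeD (K : Type) [Field K] [NumberField K] (σ σ' : K →+* ℂ) (f : ℕ) (m : ℤ) (ν : ℝ)
    (ψ : Ideal (𝓞 K) → ℂ) : Prop :=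
  0 < f ∧ ψ ⊤ = 1 ∧ (∀ I J, ψ (I * J) = ψ I * ψ J) ∧ (∀ I, PrimeTo K f I → ‖ψ I‖ = 1) ∧
  (∀ I, ¬ PrimeTo K f I → ψ I = 0) ∧
  (∀ (a : 𝓞 K) (n : ℤ), PrimeTo K f (Ideal.span {a}) → (f : 𝓞 K) ∣ a - n →
    ψ (Ideal.span {a}) = itype σ σ' m ν (a : K)) ∧
  ∀ p : ℕ, p.Prime → p ∣ f → ∃ (a : 𝓞 K) (n : ℤ), PrimeTo K f (Ideal.span {a}) ∧
    ((f / p : ℕ) : 𝓞 K) ∣ a - n ∧ ψ (Ideal.span {a}) ≠ itype σ σ' m ν (a : K)

/-- the indices `(d, ψ)` -/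
abbrev IndexD (K : ℤ → Type) [∀ d, Field (K d)] [∀ d, NumberField (K d)] : Type :=
  Σ d : ℤ, Ideal (𝓞 (K d)) → ℂ

/-- the family -/
def FamilyD (X : ℝ) (K : ℤ → Type) [∀ d, Field (K d)] [∀ d, NumberField (K d)]
    (σ σ' : ∀ d, K d →+* ℂ) (S : Finset (IndexD K)) (f : IndexD K → ℕ) (m : IndexD K → ℤ)
    (ν : IndexD K → ℝ) (L : IndexD K → ℂ → ℂ) : Prop :=
  ∀ x ∈ S, Module.finrank ℚ (K x.1) = 2 ∧ discr (K x.1) = x.1 ∧ σ x.1 ≠ σ' x.1 ∧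
    |(x.1 : ℝ)| * (f x : ℝ) ^ 2 ≤ X ∧
    IsHeckeD (K x.1) (σ x.1) (σ' x.1) (f x) (m x) (ν x) x.2 ∧
    IsLFunction (K x.1) x.2 (L x)

/-! ### Embeddings of quadratic fields -/

theorem real_of_pos (K : Type) [Field K] [NumberField K] (hrk : Module.finrank ℚ K = 2)
    (hd : 0 < discr K) (φ : K →+* ℂ) :
    ∃ ρ : K →+* ℝ, ∀ a : K, φ a = ((ρ a : ℝ) : ℂ) := by
  have h1 := NumberField.sign_discr K
  rw [Int.sign_eq_one_of_pos hd] at h1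
  have h2 := InfinitePlace.card_add_two_mul_card_eq_rank K
  rw [hrk] at h2
  have h3 : InfinitePlace.nrComplexPlaces K = 0 := by
    have h4 : InfinitePlace.nrComplexPlaces K = 0 ∨ InfinitePlace.nrComplexPlaces K = 1 := by omega
    rcases h4 with h4 | h4
    · exact h4
    · rw [h4] at h1
      norm_num at h1
  have h5 : IsTotallyReal K := (nrComplexPlaces_eq_zero_iff (K := K)).1 h3
  have h6 : ComplexEmbedding.IsReal φ := IsTotallyReal.complexEmbedding_isReal φ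
  refine ⟨h6.embedding, fun a => ?_⟩
  exact (ComplexEmbedding.IsReal.coe_embedding_apply h6 a).symm

theorem conj_of_neg (K : Type) [Field K] [NumberField K] (hrk : Module.finrank ℚ K = 2)
    (hd : discr K < 0) (φ φ' : K →+* ℂ) (hne : φ ≠ φ') :
    ∀ a : K, φ' a = (starRingEnd ℂ) (φ a) := by
  classical
  have h1 := NumberField.sign_discr K
  rw [Int.sign_eq_neg_one_of_neg hd] at h1
  have h2 := InfinitePlace.card_add_two_mul_card_eq_rank K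
  rw [hrk] at h2
  have h3 : InfinitePlace.nrComplexPlaces K = 1 := by
    have h4 : InfinitePlace.nrComplexPlaces K = 0 ∨ InfinitePlace.nrComplexPlaces K = 1 := by omega
    rcases h4 with h4 | h4
    · rw [h4] at h1
      norm_num at h1
    · exact h4
  have h4 : InfinitePlace.nrRealPlaces K = 0 := by omega
  have h5 : ¬ ComplexEmbedding.IsReal φ := by
    intro h6
    have h7 : InfinitePlace.IsReal (InfinitePlace.mk φ) := InfinitePlace.isReal_mk_iff.2 h6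
    have h8 : 0 < InfinitePlace.nrRealPlaces K :=
      Fintype.card_pos_iff.2 ⟨⟨InfinitePlace.mk φ, h7⟩⟩
    omega
  have h6 : ComplexEmbedding.conjugate φ ≠ φ := h5
  have h7 : Fintype.card (K →+* ℂ) = 2 := by rw [Embeddings.card K ℂ, hrk]
  have h8 : φ' = ComplexEmbedding.conjugate φ := by
    by_contra h9
    have h10 : ({φ, φ', ComplexEmbedding.conjugate φ} : Finset (K →+* ℂ)).card = 3 := by
      rw [Finset.card_eq_three]
      exact ⟨φ, φ', ComplexEmbedding.conjugate φ, hne, fun h => h6 h.symm, h9, rfl⟩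
    have h11 := Finset.card_le_univ ({φ, φ', ComplexEmbedding.conjugate φ} : Finset (K →+* ℂ))
    rw [h10, h7] at h11
    omega
  intro a
  rw [h8]
  rfl

theorem ne_zero_of_primeTo {K : Type} [Field K] [NumberField K] {f : ℕ} {a : 𝓞 K}
    (h : PrimeTo K f (Ideal.span {a})) : (a : K) ≠ 0 := by
  intro h0
  have h1 : a = 0 := by
    apply RingOfIntegers.coe_injective
    exact h0.trans (map_zero _).symm
  apply h.1
  rw [h1, Ideal.span_singleton_eq_bot]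

theorem itype_imag (K : Type) [Field K] [NumberField K] (hrk : Module.finrank ℚ K = 2)
    (hd : discr K < 0) (σ σ' : K →+* ℂ) (hne : σ ≠ σ') (m : ℤ) (ν : ℝ) (a : K) (ha : a ≠ 0) :
    itype σ σ' m ν a = (σ a / (starRingEnd ℂ) (σ a)) ^ m := by
  have h1 := conj_of_neg K hrk hd σ σ' hne a
  have h2 : σ a ≠ 0 := (map_ne_zero σ).2 ha
  have h3 : ‖σ a / σ' a‖ = 1 := by
    rw [h1, norm_div, Complex.norm_conj]
    exact div_self (norm_ne_zero_iff.2 h2)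
  unfold itype
  rw [h3, h1, Complex.ofReal_one, div_one, Complex.one_cpow, mul_one]

theorem itype_real (K : Type) [Field K] [NumberField K] (σ σ' : K →+* ℂ) (ρ ρ' : K →+* ℝ)
    (h : ∀ a : K, σ a = ((ρ a : ℝ) : ℂ)) (h' : ∀ a : K, σ' a = ((ρ' a : ℝ) : ℂ)) (m : ℤ) (ν : ℝ)
    (a : 𝓞 K) (ha : (a : K) ≠ 0) :
    itype σ σ' m ν (a : K) = tyr ρ ρ' (m.natAbs % 2) ν a := by
  have h1 : ρ (a : K) ≠ 0 := (map_ne_zero ρ).2 ha
  have h2 : ρ' (a : K) ≠ 0 := (map_ne_zero ρ').2 ha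
  have h3 : ρ (a : K) / ρ' (a : K) ≠ 0 := div_ne_zero h1 h2
  unfold itype tyr lg
  rw [h, h', ← Complex.ofReal_div, Complex.norm_real, Real.norm_eq_abs]
  congr 1
  · have h4 : ((ρ (a : K) / ρ' (a : K) : ℝ) : ℂ) / ((|ρ (a : K) / ρ' (a : K)| : ℝ) : ℂ) =
        ((Real.sign (ρ (a : K) * ρ' (a : K)) : ℝ) : ℂ) := by
      rw [← Complex.ofReal_div]
      congr 1
      rcases lt_or_gt_of_ne h1 with h5 | h5 <;> rcases lt_or_gt_of_ne h2 with h6 | h6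
      · rw [abs_of_pos (div_pos_of_neg_of_neg h5 h6), div_self h3,
          Real.sign_of_pos (mul_pos_of_neg_of_neg h5 h6)]
      · rw [abs_of_neg (div_neg_of_neg_of_pos h5 h6), div_neg_eq_neg_div, div_self h3,
          Real.sign_of_neg (mul_neg_of_neg_of_pos h5 h6)]
      · rw [abs_of_neg (div_neg_of_pos_of_neg h5 h6), div_neg_eq_neg_div, div_self h3,
          Real.sign_of_neg (mul_neg_of_pos_of_neg h5 h6)]
      · rw [abs_of_pos (div_pos h5 h6), div_self h3, Real.sign_of_pos (mul_pos h5 h6)]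
    rw [h4]
    have h7 : Real.sign (ρ (a : K) * ρ' (a : K)) = 1 ∨ Real.sign (ρ (a : K) * ρ' (a : K)) = -1 := by
      rcases lt_or_gt_of_ne (mul_ne_zero h1 h2) with h8 | h8
      · exact Or.inr (Real.sign_of_neg h8)
      · exact Or.inl (Real.sign_of_pos h8)
    rcases h7 with h7 | h7
    · rw [h7, Complex.ofReal_one, one_zpow, one_pow]
    · rw [h7, Complex.ofReal_neg, Complex.ofReal_one]
      rcases Nat.mod_two_eq_zero_or_one m.natAbs with h9 | h9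
      · rw [h9, pow_zero]
        exact Even.neg_one_zpow (Int.natAbs_even.1 (Nat.even_iff.2 h9))
      · rw [h9, pow_one]
        exact Odd.neg_one_zpow (Int.natAbs_odd.1 (Nat.odd_iff.2 h9))
  · have h5 : (0 : ℝ) < |ρ (a : K) / ρ' (a : K)| := abs_pos.2 h3
    rw [Complex.cpow_def_of_ne_zero (by exact_mod_cast h5.ne'), ← Complex.ofReal_log h5.le]
    congr 1
    push_cast
    ring

theorem isHecke_imag (K : Type) [Field K] [NumberField K] (hrk : Module.finrank ℚ K = 2)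
    (hd : discr K < 0) (σ σ' : K →+* ℂ) (hne : σ ≠ σ') (f : ℕ) (m : ℤ) (ν : ℝ)
    (ψ : Ideal (𝓞 K) → ℂ) (h : IsHeckeD K σ σ' f m ν ψ) : IsHecke K σ f m ψ := by
  obtain ⟨h1, h2, h3, h4, h5, h6, h7⟩ := h
  refine ⟨h1, h2, h3, h4, h5, ?_, ?_⟩
  · intro a n ha hn
    rw [h6 a n ha hn]
    exact itype_imag K hrk hd σ σ' hne m ν a (ne_zero_of_primeTo ha)
  · intro p hp hpf
    obtain ⟨a, n, ha, hn, h8⟩ := h7 p hp hpf
    refine ⟨a, n, ha, hn, ?_⟩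
    rw [← itype_imag K hrk hd σ σ' hne m ν a (ne_zero_of_primeTo ha)]
    exact h8

theorem isHecke_real (K : Type) [Field K] [NumberField K] (σ σ' : K →+* ℂ) (ρ ρ' : K →+* ℝ)
    (h : ∀ a : K, σ a = ((ρ a : ℝ) : ℂ)) (h' : ∀ a : K, σ' a = ((ρ' a : ℝ) : ℂ)) (f : ℕ) (m : ℤ)
    (ν : ℝ) (ψ : Ideal (𝓞 K) → ℂ) (hψ : IsHeckeD K σ σ' f m ν ψ) :
    RCr K ρ ρ' f (m.natAbs % 2) ν ψ := by
  obtain ⟨h1, h2, h3, h4, h5, h6, h7⟩ := hψ
  have hd : ∀ (n : ℕ) (b : 𝓞 K), (n : 𝓞 K) ∣ b ↔ b ∈ Ideal.span {(n : 𝓞 K)} :=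
    fun n b => Ideal.mem_span_singleton.symm
  refine ⟨h1, by omega, h2, h3, h5, h4, ?_, ?_⟩
  · rintro a ⟨h8, n, h9⟩
    rw [h6 a n h8 ((hd f _).2 h9)]
    exact itype_real K σ σ' ρ ρ' h h' m ν a (ne_zero_of_primeTo (f := f) h8)
  · intro p hp hpf
    obtain ⟨a, n, h8, h9, h10⟩ := h7 p hp hpf
    refine ⟨a, ⟨h8, n, (hd (f / p) _).1 h9⟩, ?_⟩
    rw [← itype_real K σ σ' ρ ρ' h h' m ν a (ne_zero_of_primeTo (f := f) h8)]
    exact h10

/-! ### Transport of a family of real quadratic fields -/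

/-- a number field with two real embeddings -/
structure Pk where
  T : Type
  i1 : Field T
  i2 : NumberField T
  s : T →+* ℝ
  s' : T →+* ℝ

attribute [instance] Pk.i1 Pk.i2

/-- the default -/
noncomputable def pk0 : Pk := ⟨ℚ, inferInstance, inferInstance, algebraMap ℚ ℝ, algebraMap ℚ ℝ⟩

theorem pk_transport (F : Type) [h1 : Field F] [h2 : NumberField F] (s s' : F →+* ℝ) (q : Pk)
    (h : q = ⟨F, h1, h2, s, s'⟩) :
    ∃ e : (Ideal (𝓞 F) → ℂ) ≃ (Ideal (𝓞 q.T) → ℂ),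
      (∀ D : ℕ, RQ F D s s' → RQ q.T D q.s q.s') ∧
      (∀ (f κ : ℕ) (ν : ℝ) (ψ : Ideal (𝓞 F) → ℂ), RCr F s s' f κ ν ψ →
        RCr q.T q.s q.s' f κ ν (e ψ)) ∧
      ∀ (ψ : Ideal (𝓞 F) → ℂ) (G : ℂ → ℂ), IsL ψ G → IsL (e ψ) G := by
  subst h
  exact ⟨Equiv.refl _, fun _ h => h, fun _ _ _ _ h => h, fun _ _ h => h⟩

/-- the data of a family with the embeddings only where they are needed -/
structure Famx (K : ℕ → Type) [∀ D, Field (K D)] [∀ D, NumberField (K D)]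
    (S : Finset (IXr K)) (f κ : IXr K → ℕ) (ν : IXr K → ℝ) (F : IXr K → ℂ → ℂ)
    (a b : ℝ) : Prop where
  q : ∀ x ∈ S, a ≤ lvr f x ∧ lvr f x ≤ b
  ch : ∃ (σ σ' : ∀ x : IXr K, x ∈ S → (K x.1 →+* ℝ)),
    (∀ (x : IXr K) (hx : x ∈ S) (ψ : Ideal (𝓞 (K x.1)) → ℂ) (hy : (⟨x.1, ψ⟩ : IXr K) ∈ S),
      σ ⟨x.1, ψ⟩ hy = σ x hx ∧ σ' ⟨x.1, ψ⟩ hy = σ' x hx) ∧
    ∀ (x : IXr K) (hx : x ∈ S), RQ (K x.1) x.1 (σ x hx) (σ' x hx) ∧
      RCr (K x.1) (σ x hx) (σ' x hx) (f x) (κ x) (ν x) x.2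
  lf : ∀ x ∈ S, IsL x.2 (F x)

/-- every such family can be replaced by one with total embeddings, with the same discriminants,
conductors, parities, parameters and `L`-functions -/
theorem famx_transport (K : ℕ → Type) [∀ D, Field (K D)] [∀ D, NumberField (K D)]
    (S : Finset (IXr K)) (f κ : IXr K → ℕ) (ν : IXr K → ℝ) (F : IXr K → ℂ → ℂ) (a b : ℝ)
    (h : Famx K S f κ ν F a b) (y₀ : IXr K) :
    ∃ (K' : ℕ → Type) (_ : ∀ D, Field (K' D)) (_ : ∀ D, NumberField (K' D))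
      (σ σ' : ∀ D, K' D →+* ℝ) (S' : Finset (IXr K')) (g : IXr K' → IXr K) (V : ℝ),
      Famr K' σ σ' S' (fun z => f (g z)) (fun z => κ (g z)) (fun z => ν (g z))
        (fun z => F (g z)) a b V ∧
      (∀ z ∈ S', g z ∈ S ∧ (g z).1 = z.1) ∧ Set.InjOn g S' ∧ ∀ x ∈ S, ∃ z ∈ S', g z = x := by
  classical
  obtain ⟨hq, ⟨σ, σ', hσ, hch⟩, hlf⟩ := h
  -- the packages
  let pk : ℕ → Pk := fun D => if hD : ∃ (ψ : Ideal (𝓞 (K D)) → ℂ), (⟨D, ψ⟩ : IXr K) ∈ S then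
    ⟨K D, inferInstance, inferInstance, σ ⟨D, hD.choose⟩ hD.choose_spec,
      σ' ⟨D, hD.choose⟩ hD.choose_spec⟩ else pk0
  have hpk : ∀ (x : IXr K) (hx : x ∈ S), pk x.1 =
      ⟨K x.1, inferInstance, inferInstance, σ x hx, σ' x hx⟩ := by
    intro x hx
    have hD : ∃ (ψ : Ideal (𝓞 (K x.1)) → ℂ), (⟨x.1, ψ⟩ : IXr K) ∈ S := ⟨x.2, hx⟩
    have h1 : pk x.1 = ⟨K x.1, inferInstance, inferInstance, σ ⟨x.1, hD.choose⟩ hD.choose_spec,
      σ' ⟨x.1, hD.choose⟩ hD.choose_spec⟩ := dif_pos hD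
    rw [h1, (hσ x hx hD.choose hD.choose_spec).1, (hσ x hx hD.choose hD.choose_spec).2]
  have htr : ∀ D : ℕ, ∃ e : (Ideal (𝓞 (K D)) → ℂ) → (Ideal (𝓞 (pk D).T) → ℂ),
      ∀ (x : IXr K) (hx : x ∈ S) (hxD : x.1 = D), Function.Injective e ∧
        RQ (pk D).T D (pk D).s (pk D).s' ∧
        (∀ ψ : Ideal (𝓞 (K D)) → ℂ, (⟨D, ψ⟩ : IXr K) ∈ S →
          RCr (pk D).T (pk D).s (pk D).s' (f ⟨D, ψ⟩) (κ ⟨D, ψ⟩) (ν ⟨D, ψ⟩) (e ψ)) ∧
        ∀ (ψ : Ideal (𝓞 (K D)) → ℂ) (G : ℂ → ℂ), IsL ψ G → IsL (e ψ) G := by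
    intro D
    by_cases hD : ∃ (ψ : Ideal (𝓞 (K D)) → ℂ), (⟨D, ψ⟩ : IXr K) ∈ S
    · obtain ⟨ψ₀, hψ₀⟩ := hD
      obtain ⟨e, he1, he2, he3⟩ := pk_transport (K D) (σ ⟨D, ψ₀⟩ hψ₀) (σ' ⟨D, ψ₀⟩ hψ₀) (pk D)
        (hpk ⟨D, ψ₀⟩ hψ₀)
      refine ⟨e, fun x hx hxD => ⟨e.injective, he1 D (hch ⟨D, ψ₀⟩ hψ₀).1, ?_, he3⟩⟩
      intro ψ hψ
      have h1 := (hch ⟨D, ψ⟩ hψ).2
      have h2 := hσ ⟨D, ψ₀⟩ hψ₀ ψ hψ
      have h3 : RCr (K D) (σ ⟨D, ψ₀⟩ hψ₀) (σ' ⟨D, ψ₀⟩ hψ₀) (f ⟨D, ψ⟩) (κ ⟨D, ψ⟩) (ν ⟨D, ψ⟩) ψ := by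
        rw [← h2.1, ← h2.2]
        exact h1
      exact he2 _ _ _ _ h3
    · refine ⟨fun _ _ => 0, fun x hx hxD => absurd ?_ hD⟩
      subst hxD
      exact ⟨x.2, hx⟩
  choose e he using htr
  let G : IXr K → IXr (fun D => (pk D).T) := fun x => ⟨x.1, e x.1 x.2⟩
  have hG : Set.InjOn G S := by
    rintro ⟨D, ψ⟩ hx ⟨D', ψ'⟩ hx' hxx
    have h1 : D = D' := congrArg Sigma.fst hxx
    subst h1
    have h2 : e D ψ = e D ψ' := eq_of_heq (Sigma.mk.inj_iff.1 hxx).2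
    rw [(he D ⟨D, ψ⟩ hx rfl).1 h2]
  let g : IXr (fun D => (pk D).T) → IXr K := fun z =>
    if hz : ∃ x ∈ S, G x = z then hz.choose else y₀
  have hg : ∀ x ∈ S, g (G x) = x := by
    intro x hx
    have hz : ∃ x' ∈ S, G x' = G x := ⟨x, hx, rfl⟩
    have h1 : g (G x) = hz.choose := dif_pos hz
    rw [h1]
    exact hG hz.choose_spec.1 hx hz.choose_spec.2
  obtain ⟨V, hV⟩ : ∃ V : ℝ, ∀ x ∈ S, |ν x| ≤ V :=
    ⟨∑ x ∈ S, |ν x|, fun x hx => Finset.single_le_sum (f := fun x => |ν x|)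
      (fun _ _ => abs_nonneg _) hx⟩
  refine ⟨fun D => (pk D).T, fun D => (pk D).i1, fun D => (pk D).i2, fun D => (pk D).s,
    fun D => (pk D).s', S.image G, g, V, ⟨?_, ?_, ?_, ?_, ?_⟩, ?_, ?_, ?_⟩
  · intro z hz
    obtain ⟨x, hx, rfl⟩ := Finset.mem_image.1 hz
    have h1 := hq x hx
    unfold lvr at h1 ⊢
    change a ≤ (x.1 : ℝ) * (f (g (G x)) : ℝ) ^ 2 ∧ (x.1 : ℝ) * (f (g (G x)) : ℝ) ^ 2 ≤ b
    rw [hg x hx]
    exact h1
  · intro z hz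
    obtain ⟨x, hx, rfl⟩ := Finset.mem_image.1 hz
    exact (he x.1 x hx rfl).2.1
  · intro z hz
    obtain ⟨x, hx, rfl⟩ := Finset.mem_image.1 hz
    have h1 := (he x.1 x hx rfl).2.2.1 x.2 hx
    change RCr _ _ _ (f (g (G x))) (κ (g (G x))) (ν (g (G x))) _
    rw [hg x hx]
    exact h1
  · intro z hz
    obtain ⟨x, hx, rfl⟩ := Finset.mem_image.1 hz
    rw [hg x hx]
    exact (he x.1 x hx rfl).2.2.2 x.2 _ (hlf x hx)
  · intro z hz
    obtain ⟨x, hx, rfl⟩ := Finset.mem_image.1 hz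
    rw [hg x hx]
    exact hV x hx
  · intro z hz
    obtain ⟨x, hx, rfl⟩ := Finset.mem_image.1 hz
    rw [hg x hx]
    exact ⟨hx, rfl⟩
  · intro z hz z' hz' hzz
    obtain ⟨x, hx, rfl⟩ := Finset.mem_image.1 (Finset.mem_coe.1 hz)
    obtain ⟨x', hx', rfl⟩ := Finset.mem_image.1 (Finset.mem_coe.1 hz')
    rw [hg x hx, hg x' hx'] at hzz
    rw [hzz]
  · intro x hx
    exact ⟨G x, Finset.mem_image_of_mem G hx, hg x hx⟩

/-! ### The two halves of a family -/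

section

variable (K : ℤ → Type) [∀ d, Field (K d)] [∀ d, NumberField (K d)]

/-- the indices of the real quadratic fields -/
def ip (y : IXr (fun D : ℕ => K (D : ℤ))) : IndexD K := ⟨(y.1 : ℤ), y.2⟩

/-- the indices of the imaginary quadratic fields -/
def im (y : IXr (fun D : ℕ => K (-(D : ℤ)))) : IndexD K := ⟨-(y.1 : ℤ), y.2⟩

theorem ip_inj : Function.Injective (ip K) := by
  rintro ⟨D, ψ⟩ ⟨D', ψ'⟩ h
  have h1 : (D : ℤ) = (D' : ℤ) := congrArg Sigma.fst h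
  have h2 : D = D' := by exact_mod_cast h1
  subst h2
  have h3 : ψ = ψ' := eq_of_heq (Sigma.mk.inj_iff.1 h).2
  rw [h3]

theorem im_inj : Function.Injective (im K) := by
  rintro ⟨D, ψ⟩ ⟨D', ψ'⟩ h
  have h1 : -(D : ℤ) = -(D' : ℤ) := congrArg Sigma.fst h
  have h2 : D = D' := by
    have h3 := neg_injective h1
    exact_mod_cast h3
  subst h2
  have h3 : ψ = ψ' := eq_of_heq (Sigma.mk.inj_iff.1 h).2
  rw [h3]

theorem ip_surj (x : IndexD K) (h : 0 < x.1) : ∃ y, ip K y = x := by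
  obtain ⟨d, ψ⟩ := x
  obtain ⟨n, rfl⟩ := Int.eq_ofNat_of_zero_le (show (0 : ℤ) ≤ d from le_of_lt h)
  exact ⟨⟨n, ψ⟩, rfl⟩

theorem im_surj (x : IndexD K) (h : x.1 < 0) : ∃ y, im K y = x := by
  obtain ⟨d, ψ⟩ := x
  obtain ⟨n, hn⟩ := Int.eq_ofNat_of_zero_le (show (0 : ℤ) ≤ -d by
    change d < 0 at h
    omega)
  have h1 : d = -(n : ℤ) := by omega
  subst h1
  exact ⟨⟨n, ψ⟩, rfl⟩

end

end Pool.Agent.H89.DF
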