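import Pool.Agent.H89.DF.Fin

/-!
# The dihedral `L`-functions: the two halves of the theorem
-/

set_option autoImplicit false

open MeasureTheory Set Filter NumberField
open scoped Real nonZeroDivisors

namespace Pool.Agent.H89.DF

open Pool.Agent.H31.CN Pool.Agent.H89.FM Pool.Agent.H61.FM Pool.Agent.H89.FC

section

variable {K : ℤ → Type} [∀ d, Field (K d)] [∀ d, NumberField (K d)]

/-- the size `1 + |t| + |m| + |ν|` -/
def szD (m : IndexD K → ℤ) (ν : IndexD K → ℝ) (x : IndexD K) (t : ℝ) : ℝ :=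
  1 + |t| + |(m x : ℝ)| + |ν x|

theorem szD_ge (m : IndexD K → ℤ) (ν : IndexD K → ℝ) (x : IndexD K) (t : ℝ) :
    1 ≤ szD m ν x t ∧ 1 + |t| + |ν x| ≤ szD m ν x t ∧ 1 + |t| + |(m x : ℝ)| ≤ szD m ν x t := by
  unfold szD
  have h1 := abs_nonneg t
  have h2 := abs_nonneg (m x : ℝ)
  have h3 := abs_nonneg (ν x)
  refine ⟨by linarith, by linarith, by linarith⟩

/-- the discriminants of a family are not zero -/
theorem famD_ne {X : ℝ} {σ σ' : ∀ d, K d →+* ℂ} {S : Finset (IndexD K)} {f : IndexD K → ℕ}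
    {m : IndexD K → ℤ} {ν : IndexD K → ℝ} {L : IndexD K → ℂ → ℂ}
    (h : FamilyD X K σ σ' S f m ν L) (x : IndexD K) (hx : x ∈ S) : x.1 ≠ 0 := by
  intro h0
  have h1 := (h x hx).2.1
  exact NumberField.discr_ne_zero (K x.1) (h1.trans h0)

/-- the real half of a family -/
theorem real_half {X : ℝ} {σ σ' : ∀ d, K d →+* ℂ} {S : Finset (IndexD K)}
    {f : IndexD K → ℕ} {m : IndexD K → ℤ} {ν : IndexD K → ℝ} {L : IndexD K → ℂ → ℂ}
    (h : FamilyD X K σ σ' S f m ν L) (x₀ : IndexD K) (hx₀p : 0 < x₀.1) :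
    ∃ (K' : ℕ → Type) (_ : ∀ D, Field (K' D)) (_ : ∀ D, NumberField (K' D))
      (τ τ' : ∀ D, K' D →+* ℝ) (S' : Finset (IXr K')) (g : IXr K' → IndexD K) (κ : IXr K' → ℕ)
      (V : ℝ),
      Famr K' τ τ' S' (fun z => f (g z)) κ (fun z => ν (g z)) (fun z => L (g z)) 0 X V ∧
      (∀ z ∈ S', g z ∈ S ∧ (g z).1 = (z.1 : ℤ) ∧ 0 < (g z).1 ∧
        lvr (fun z => f (g z)) z = |((g z).1 : ℝ)| * (f (g z) : ℝ) ^ 2) ∧
      Set.InjOn g S' ∧ ∀ x ∈ S, 0 < x.1 → ∃ z ∈ S', g z = x := by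
  classical
  obtain ⟨y₀, hy₀⟩ := ip_surj K x₀ hx₀p
  have hS : ∀ y, y ∈ S.preimage (ip K) (ip_inj K).injOn ↔ ip K y ∈ S := fun y =>
    Finset.mem_preimage
  have hdis : ∀ y : IXr (fun D : ℕ => K (D : ℤ)), ip K y ∈ S →
      discr (K (y.1 : ℤ)) = (y.1 : ℤ) ∧ 0 < discr (K (y.1 : ℤ)) ∧ 0 < y.1 := by
    intro y hy
    have h1 : discr (K (y.1 : ℤ)) = (y.1 : ℤ) := (h _ hy).2.1
    have h2 : (y.1 : ℤ) ≠ 0 := famD_ne h _ hy
    have h3 : 0 < y.1 := by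
      have : y.1 ≠ 0 := by exact_mod_cast h2
      omega
    refine ⟨h1, ?_, h3⟩
    rw [h1]
    exact_mod_cast h3
  have hFx : Famx (fun D : ℕ => K (D : ℤ)) (S.preimage (ip K) (ip_inj K).injOn)
      (fun y => f (ip K y)) (fun y => (m (ip K y)).natAbs % 2) (fun y => ν (ip K y))
      (fun y => L (ip K y)) 0 X := by
    refine ⟨?_, ⟨fun y hy => (real_of_pos (K (y.1 : ℤ)) (h _ ((hS y).1 hy)).1
      (hdis y ((hS y).1 hy)).2.1 (σ (y.1 : ℤ))).choose,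
      fun y hy => (real_of_pos (K (y.1 : ℤ)) (h _ ((hS y).1 hy)).1
      (hdis y ((hS y).1 hy)).2.1 (σ' (y.1 : ℤ))).choose, ?_, ?_⟩, ?_⟩
    · intro y hy
      have h1 := (h _ ((hS y).1 hy)).2.2.2.1
      unfold lvr
      refine ⟨by positivity, ?_⟩
      have h2 : |(((ip K y).1 : ℤ) : ℝ)| = (y.1 : ℝ) := by
        change |((y.1 : ℤ) : ℝ)| = (y.1 : ℝ)
        rw [Int.cast_natCast, abs_of_nonneg (Nat.cast_nonneg _)]
      rw [h2] at h1
      exact h1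
    · intro x hx ψ hy
      exact ⟨rfl, rfl⟩
    · intro y hy
      have hyS := (hS y).1 hy
      have e1 := (real_of_pos (K (y.1 : ℤ)) (h _ hyS).1 (hdis y hyS).2.1
        (σ (y.1 : ℤ))).choose_spec
      have e2 := (real_of_pos (K (y.1 : ℤ)) (h _ hyS).1 (hdis y hyS).2.1
        (σ' (y.1 : ℤ))).choose_spec
      refine ⟨⟨(hdis y hyS).2.2, (h _ hyS).1, (hdis y hyS).1, ?_⟩, ?_⟩
      · intro h0
        apply (h _ hyS).2.2.1
        ext a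
        change σ (y.1 : ℤ) a = σ' (y.1 : ℤ) a
        rw [e1, e2]
        exact congrArg (fun r : K (y.1 : ℤ) →+* ℝ => ((r a : ℝ) : ℂ)) h0
      · exact isHecke_real (K (y.1 : ℤ)) (σ (y.1 : ℤ)) (σ' (y.1 : ℤ)) _ _ e1 e2 _ _ _ _
          (h _ hyS).2.2.2.2.1
    · intro y hy
      exact (h _ ((hS y).1 hy)).2.2.2.2.2
  obtain ⟨K', i1, i2, τ, τ', S', g, V, hF, hg1, hg2, hg3⟩ :=
    famx_transport (fun D : ℕ => K (D : ℤ)) _ _ _ _ _ 0 X hFx y₀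
  refine ⟨K', i1, i2, τ, τ', S', fun z => ip K (g z), _, V, hF, ?_, ?_, ?_⟩
  · intro z hz
    obtain ⟨h1, h2⟩ := hg1 z hz
    have h3 := (hS _).1 h1
    have h4 := (hdis _ h3).2.2
    have h5 : (ip K (g z)).1 = (z.1 : ℤ) := by
      change ((g z).1 : ℤ) = (z.1 : ℤ)
      rw [h2]
    refine ⟨h3, h5, ?_, ?_⟩
    · rw [h5, ← h2]
      exact_mod_cast h4
    · unfold lvr
      rw [h5, Int.cast_natCast, abs_of_nonneg (Nat.cast_nonneg _)]
  · intro z hz z' hz' hzz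
    exact hg2 hz hz' (ip_inj K hzz)
  · intro x hx hxp
    obtain ⟨y, rfl⟩ := ip_surj K x hxp
    obtain ⟨z, hz, rfl⟩ := hg3 y ((hS y).2 hx)
    exact ⟨z, hz, rfl⟩

/-- the imaginary half of a family -/
theorem imag_half {X : ℝ} {σ σ' : ∀ d, K d →+* ℂ} {S : Finset (IndexD K)}
    {f : IndexD K → ℕ} {m : IndexD K → ℤ} {ν : IndexD K → ℝ} {L : IndexD K → ℂ → ℂ}
    (h : FamilyD X K σ σ' S f m ν L) :
    ∃ (S' : Finset (Index (fun D : ℕ => K (-(D : ℤ)))))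
      (g : Index (fun D : ℕ => K (-(D : ℤ))) → IndexD K),
      Family X (fun D : ℕ => K (-(D : ℤ))) (fun D => σ (-(D : ℤ))) S' (fun z => L (g z)) ∧
      (∀ z ∈ S', g z ∈ S ∧ (g z).1 = -(z.1 : ℤ) ∧ (g z).1 < 0 ∧ z.2.1 = f (g z) ∧
        z.2.2.1 = m (g z) ∧ level z = |((g z).1 : ℝ)| * (f (g z) : ℝ) ^ 2) ∧
      Set.InjOn g S' ∧ ∀ x ∈ S, x.1 < 0 → ∃ z ∈ S', g z = x := by
  classical
  have hS : ∀ y, y ∈ S.preimage (im K) (im_inj K).injOn ↔ im K y ∈ S := fun y =>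
    Finset.mem_preimage
  let E : IXr (fun D : ℕ => K (-(D : ℤ))) → Index (fun D : ℕ => K (-(D : ℤ))) := fun y =>
    ⟨y.1, f (im K y), m (im K y), y.2⟩
  let g : Index (fun D : ℕ => K (-(D : ℤ))) → IndexD K := fun z => im K ⟨z.1, z.2.2.2⟩
  have hgE : ∀ y, g (E y) = im K y := fun y => rfl
  have hdis : ∀ y : IXr (fun D : ℕ => K (-(D : ℤ))), im K y ∈ S →
      discr (K (-(y.1 : ℤ))) = -(y.1 : ℤ) ∧ discr (K (-(y.1 : ℤ))) < 0 ∧ 0 < y.1 := by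
    intro y hy
    have h1 : discr (K (-(y.1 : ℤ))) = -(y.1 : ℤ) := (h _ hy).2.1
    have h2 : -(y.1 : ℤ) ≠ 0 := famD_ne h _ hy
    have h3 : 0 < y.1 := by
      have : y.1 ≠ 0 := by
        intro h0
        apply h2
        rw [h0]
        simp
      omega
    refine ⟨h1, ?_, h3⟩
    rw [h1]
    omega
  have hlev : ∀ y : IXr (fun D : ℕ => K (-(D : ℤ))),
      level (E y) = |((im K y).1 : ℝ)| * (f (im K y) : ℝ) ^ 2 := by
    intro y
    change (y.1 : ℝ) * (f (im K y) : ℝ) ^ 2 = |((-(y.1 : ℤ) : ℤ) : ℝ)| * (f (im K y) : ℝ) ^ 2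
    rw [Int.cast_neg, abs_neg, Int.cast_natCast, abs_of_nonneg (Nat.cast_nonneg _)]
  refine ⟨(S.preimage (im K) (im_inj K).injOn).image E, g, ?_, ?_, ?_, ?_⟩
  · intro z hz
    obtain ⟨y, hy, rfl⟩ := Finset.mem_image.1 hz
    have hyS := (hS y).1 hy
    refine ⟨(h _ hyS).1, (hdis y hyS).1, ?_, ?_, ?_⟩
    · rw [hlev]
      exact (h _ hyS).2.2.2.1
    · exact isHecke_imag (K (-(y.1 : ℤ))) (h _ hyS).1 (hdis y hyS).2.1 (σ (-(y.1 : ℤ)))
        (σ' (-(y.1 : ℤ))) (h _ hyS).2.2.1 _ _ _ _ (h _ hyS).2.2.2.2.1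
    · exact (h _ hyS).2.2.2.2.2
  · intro z hz
    obtain ⟨y, hy, rfl⟩ := Finset.mem_image.1 hz
    have hyS := (hS y).1 hy
    refine ⟨hyS, rfl, ?_, rfl, rfl, hlev y⟩
    have h1 := (hdis y hyS).2.2
    change -(y.1 : ℤ) < 0
    omega
  · intro z hz z' hz' hzz
    obtain ⟨y, hy, rfl⟩ := Finset.mem_image.1 (Finset.mem_coe.1 hz)
    obtain ⟨y', hy', rfl⟩ := Finset.mem_image.1 (Finset.mem_coe.1 hz')
    have h1 : im K y = im K y' := hzz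
    rw [im_inj K h1]
  · intro x hx hxn
    obtain ⟨y, rfl⟩ := im_surj K x hxn
    exact ⟨E y, Finset.mem_image_of_mem E ((hS y).2 hx), rfl⟩

end

end Pool.Agent.H89.DF
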