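import Pool.Agent.H89.DF.Defs

/-!
# Real quadratic fields: the final targets of the analytic part
-/

set_option autoImplicit false

open MeasureTheory Set Filter NumberField
open scoped Real nonZeroDivisors

namespace Pool.Agent.H89.DF

open Pool.Agent.H31.CN Pool.Agent.H89.FM Pool.Agent.H61.FM Pool.Agent.H89.FC

/-- (FM2r) the fourth moment, all parities and spectral parameters, all levels up to `X`
(the number `V` does not occur in the bound). -/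
def T_FM2r : Prop :=
  ∀ ε : ℝ, 0 < ε → ∃ (C : ℝ) (A : ℕ), 0 < C ∧
    ∀ (X V : ℝ) (K : ℕ → Type) [∀ D, Field (K D)] [∀ D, NumberField (K D)]
      (σ σ' : ∀ D, K D →+* ℝ) (S : Finset (IXr K)) (f κ : IXr K → ℕ) (ν : IXr K → ℝ)
      (F : IXr K → ℂ → ℂ) (t : IXr K → ℝ),
      1 ≤ X → Famr K σ σ' S f κ ν F 0 X V →
      ∑ y ∈ S, (‖F y (1 / 2 + t y * Complex.I)‖ / (1 + |t y| + |ν y|) ^ A) ^ 4 ≤
        C * X ^ (3 / 2 + ε)

/-- (CORr) for almost all pairs of a discriminant and a conductor all `L`-functions are small. -/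
def T_CORr : Prop :=
  ∀ ε : ℝ, 0 < ε → ∃ (C : ℝ) (A : ℕ), 0 < C ∧
    ∀ (X V η : ℝ) (K : ℕ → Type) [∀ D, Field (K D)] [∀ D, NumberField (K D)]
      (σ σ' : ∀ D, K D →+* ℝ) (S : Finset (IXr K)) (f κ : IXr K → ℕ) (ν : IXr K → ℝ)
      (F : IXr K → ℂ → ℂ) (T : Finset (ℕ × ℕ)),
      1 ≤ X → 0 ≤ η → η ≤ 1 / 4 → Famr K σ σ' S f κ ν F 0 X V →
      (∀ p ∈ T, ∃ y ∈ S, y.1 = p.1 ∧ f y = p.2 ∧ ∃ t : ℝ,
        (1 + |t| + |ν y|) ^ A * lvr f y ^ (1 / 8 + η) < ‖F y (1 / 2 + t * Complex.I)‖) →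
      (T.card : ℝ) ≤ C * X ^ (1 - 4 * η + ε)

/-- (CO2r) almost all `L`-functions are small. -/
def T_CO2r : Prop :=
  ∀ ε : ℝ, 0 < ε → ∃ (C : ℝ) (A : ℕ), 0 < C ∧
    ∀ (X V η : ℝ) (K : ℕ → Type) [∀ D, Field (K D)] [∀ D, NumberField (K D)]
      (σ σ' : ∀ D, K D →+* ℝ) (S : Finset (IXr K)) (f κ : IXr K → ℕ) (ν : IXr K → ℝ)
      (F : IXr K → ℂ → ℂ),
      1 ≤ X → 0 ≤ η → η ≤ 3 / 8 → Famr K σ σ' S f κ ν F 0 X V →
      (∀ y ∈ S, ∃ t : ℝ,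
        (1 + |t| + |ν y|) ^ A * lvr f y ^ η < ‖F y (1 / 2 + t * Complex.I)‖) →
      (S.card : ℝ) ≤ C * X ^ (3 / 2 - 4 * η + ε)

end Pool.Agent.H89.DF
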